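import Pool.Agent.H560.MQ.Rows

/-!
Rows of the matrices of Maier with arbitrary nonnegative weights on the shifts.
-/

set_option autoImplicit false

open Finset Filter Topology
open Pool.Agent.H378R2 Pool.Agent.H510R2.Maier Pool.Agent.T2H52.MG
open Pool.Agent.R529.BU (ev_smallk ev_pow_le)

namespace Pool.Agent.H560.NP

/-- the sum of the weights of the `h ≤ Y` with `r + h` prime to `W` -/
noncomputable def SF (W r Y : ℕ) (f : ℕ → ℝ) : ℝ := ∑ h ∈ (Icc 1 Y).filter (fun h => (r + h).Coprime W), f h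

/-- the weighted sum of `log p` over the primes `n + h`, `h ≤ Y` -/
noncomputable def thF (f : ℕ → ℝ) (Y n : ℕ) : ℝ := ∑ h ∈ Icc 1 Y, f h * th (n + h)

theorem SF_nonneg (W r Y : ℕ) (f : ℕ → ℝ) (hf : ∀ h, 0 ≤ f h) : 0 ≤ SF W r Y f := Finset.sum_nonneg fun h _ => hf h

theorem thF_nonneg (f : ℕ → ℝ) (hf : ∀ h, 0 ≤ f h) (Y n : ℕ) : 0 ≤ thF f Y n :=
  Finset.sum_nonneg fun h _ => mul_nonneg (hf h) (th_nonneg _)

theorem row_single (X : ℝ) (hX : 4 ≤ X) (W r Y h : ℕ) (hh : h ∈ Icc 1 Y) (hY : (Y : ℝ) ≤ X / 2)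
    (hW : ∀ p : ℕ, p.Prime → p ∣ W → (p : ℝ) ≤ X) (E : ℝ)
    (hE : ∀ b : ℕ, b.Coprime W → |EPhi X W b| ≤ E) :
    |∑ n ∈ Icc 1 ⌊3 * X⌋₊, nu X W r n * th (n + h) -
      (if (r + h).Coprime W then LPhi X * (1 / (Nat.totient W : ℝ)) else 0)| ≤
      if (r + h).Coprime W then E + (4 * Y * Real.log (4 * X) + 4 * Real.sqrt X * Real.log (4 * X)) else 0 := by
  classical
  set N := ⌊3 * X⌋₊ with hN
  have hX0 : 0 < X := by linarith
  have hl : 0 ≤ Real.log (4 * X) := Real.log_nonneg (by linarith)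
  have hh := Finset.mem_Icc.1 hh
  have hhY : (h : ℝ) ≤ Y := by exact_mod_cast hh.2
  by_cases hc : (r + h).Coprime W
  · rw [if_pos hc, if_pos hc]
    have a1 := shift_bound X hX W r h (by linarith) (fun _ => (1 : ℝ)) 1 (fun _ => by simp)
    simp only [mul_one, one_mul] at a1
    have a2 := hE (r + h) hc
    rw [EPhi_eq] at a2
    have a3 : |∑ n ∈ Icc 1 N, nu X W r n * th (n + h) - LPhi X * (1 / (Nat.totient W : ℝ))| ≤
        ((4 * h) * Real.log (4 * X) + 4 * Real.sqrt X * Real.log (4 * X)) + E := by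
      have a4 : ∑ n ∈ (Icc 1 N).filter (fun n => n ≡ r + h [MOD W]),
          Phi (n / X) * ArithmeticFunction.vonMangoldt n =
          ∑ n ∈ Icc 1 N, (if n ≡ r + h [MOD W] then Phi (n / X) * ArithmeticFunction.vonMangoldt n else 0) := by
        rw [Finset.sum_filter]
      rw [a4] at a2
      rw [abs_le] at a1 a2 ⊢
      constructor
      · linarith [a1.1, a2.1]
      · linarith [a1.2, a2.2]
    refine a3.trans ?_
    have : (4 * h) * Real.log (4 * X) ≤ 4 * Y * Real.log (4 * X) :=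
      mul_le_mul_of_nonneg_right (by linarith) hl
    linarith
  · rw [if_neg hc, if_neg hc, sub_zero]
    have hz : ∑ n ∈ Icc 1 N, nu X W r n * th (n + h) = 0 := by
      apply Finset.sum_eq_zero
      intro n hn
      unfold nu
      split_ifs with hmod
      · rcases le_or_gt (n : ℝ) X with hnX | hnX
        · rw [Phi_eq_zero_of_le (by positivity) (by rw [div_le_one hX0]; exact hnX), zero_mul]
        · unfold th
          split_ifs with hp
          · exfalso
            obtain ⟨p, hpp, hp1, hp2⟩ := Nat.Prime.not_coprime_iff_dvd.1 hc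
            have hmod2 : n + h ≡ r + h [MOD W] := Nat.ModEq.add_right _ hmod
            have hmod3 : n + h ≡ r + h [MOD p] := hmod2.of_dvd hp2
            have hdvd : p ∣ n + h := (Nat.ModEq.dvd_iff hmod3 dvd_rfl).2 hp1
            have heq : p = n + h := (Nat.prime_dvd_prime_iff_eq hpp hp).1 hdvd
            have := hW p hpp hp2
            rw [heq] at this
            push_cast at this
            have : (0 : ℝ) ≤ h := by positivity
            linarith
          · rw [mul_zero]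
      · rw [zero_mul]
    rw [hz, abs_zero]

theorem matrix_sumF (X : ℝ) (hX : 4 ≤ X) (W r Y : ℕ) (f : ℕ → ℝ) (hf : ∀ h, 0 ≤ f h) (hY : (Y : ℝ) ≤ X / 2)
    (hW : ∀ p : ℕ, p.Prime → p ∣ W → (p : ℝ) ≤ X) (E : ℝ)
    (hE : ∀ b : ℕ, b.Coprime W → |EPhi X W b| ≤ E) :
    |∑ n ∈ Icc 1 ⌊3 * X⌋₊, nu X W r n * thF f Y n - SF W r Y f * (LPhi X * (1 / (Nat.totient W : ℝ)))| ≤
      SF W r Y f * (E + (4 * Y * Real.log (4 * X) + 4 * Real.sqrt X * Real.log (4 * X))) := by
  classical
  have h1 : ∑ n ∈ Icc 1 ⌊3 * X⌋₊, nu X W r n * thF f Y n =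
      ∑ h ∈ Icc 1 Y, f h * ∑ n ∈ Icc 1 ⌊3 * X⌋₊, nu X W r n * th (n + h) := by
    unfold thF
    simp_rw [Finset.mul_sum]
    rw [Finset.sum_comm]
    apply Finset.sum_congr rfl
    intro h _
    apply Finset.sum_congr rfl
    intro n _
    ring
  have h2 : ∀ A : ℝ, SF W r Y f * A = ∑ h ∈ Icc 1 Y, f h * (if (r + h).Coprime W then A else 0) := by
    intro A
    unfold SF
    rw [Finset.sum_filter, Finset.sum_mul]
    apply Finset.sum_congr rfl
    intro h _
    split_ifs
    · rfl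
    · ring
  rw [h1, h2, h2, ← Finset.sum_sub_distrib]
  refine (Finset.abs_sum_le_sum_abs _ _).trans (Finset.sum_le_sum fun h hh => ?_)
  rw [← mul_sub, abs_mul, abs_of_nonneg (hf h)]
  exact mul_le_mul_of_nonneg_left (row_single X hX W r Y h hh hY hW E hE) (hf h)

set_option maxHeartbeats 4000000 in
/-- weighted sums over the rows -/
theorem rows_F (k : ℕ) (ε : ℝ) (hε : 0 < ε) (hε1 : ε ≤ 1) (Z : ℕ) : ∃ X0 : ℝ, ∀ X : ℝ, X0 ≤ X →
    ∃ (ps : ℕ) (S : Finset ℕ), GoodP Z ps ∧ GoodS X S ∧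
      ∀ (z r Y : ℕ) (f : ℕ → ℝ), (z : ℝ) ≤ Real.log X / 1100 → (Y : ℝ) ≤ (Real.log X) ^ k → (∀ h, 0 ≤ f h) →
        |∑ n ∈ Icc 1 ⌊3 * X⌋₊, nu X (WZ X z S ps) r n * thF f Y n -
          SF (WZ X z S ps) r Y f * (MPhi X / (WZ X z S ps).totient)| ≤
        ε * (SF (WZ X z S ps) r Y f * (MPhi X / (WZ X z S ps).totient)) := by
  obtain ⟨X1, hX1⟩ := bvrel_holds 1 Z
  have hlogtop : Tendsto Real.log atTop atTop := Real.tendsto_log_atTop
  have ev1 := lphi_mphi (ε / 80) (by positivity)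
  have ev2 : ∀ᶠ X : ℝ in atTop, (Real.log X) ^ (k + 1) * (4 * (Real.log X) ^ (k + 1) * (2 * Real.log X) +
      8 * Real.exp (Real.log X / 2) * (2 * Real.log X)) * Real.exp (Real.log X / 700) ≤ Real.exp (Real.log X) :=
    hlogtop.eventually (ev_smallk (k + 1))
  have ev3 := ev_pow_le k
  have hev := ((((ev1.and ev2).and ev3)).and (eventually_ge_atTop X1)).and
    ((eventually_ge_atTop (40 : ℝ)).and (hlogtop.eventually_ge_atTop (max 2 (160 / ε))))
  obtain ⟨X0, hX0⟩ := eventually_atTop.1 hev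
  refine ⟨X0, fun X hX => ?_⟩
  obtain ⟨⟨⟨⟨h1, h2⟩, h3⟩, h5⟩, h6, h7'⟩ := hX0 X hX
  have h7 : 2 ≤ Real.log X := (le_max_left _ _).trans h7'
  have h8 : 160 / ε ≤ Real.log X := (le_max_right _ _).trans h7'
  obtain ⟨ps, S, hps, hS, hbv⟩ := hX1 X h5
  refine ⟨ps, S, hps, hS, fun z r Y f hz hY hf => ?_⟩
  have hXpos : 0 < X := by linarith
  obtain ⟨W2, hW2, hco, hWprod, hWDle⟩ := pz_decomp X z S ps
  set W := WZ X z S ps with hW
  have hW0 : 0 < W := WZ_pos X z S ps
  have hWr : (0 : ℝ) < W := by exact_mod_cast hW0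
  have hφ0 : (0 : ℝ) < W.totient := by exact_mod_cast Nat.totient_pos.2 hW0
  have hφ2 : (0 : ℝ) < W2.totient := by exact_mod_cast Nat.totient_pos.2 hW2
  have hφle : (W.totient : ℝ) ≤ W := by exact_mod_cast Nat.totient_le W
  have hWle : (W : ℝ) ≤ Real.exp (Real.log X / 700) := by
    refine (WZ_le X z S ps).trans ?_
    apply Real.exp_le_exp.2
    have : 0 ≤ Real.log X := by linarith
    linarith
  set L := Real.log X with hL
  have hL0 : 0 < L := by linarith
  have hexpL : Real.exp L = X := Real.exp_log hXpos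
  have hsqrt : Real.sqrt X = Real.exp (L / 2) := by
    rw [← hexpL, Real.sqrt_eq_iff_mul_self_eq (Real.exp_pos _).le (Real.exp_pos _).le, ← Real.exp_add]
    congr 1; ring
  have hl4 : Real.log (4 * X) ≤ 2 * L := by
    rw [Real.log_mul (by norm_num) hXpos.ne']
    have : Real.log 4 ≤ 2 := by
      rw [show (4 : ℝ) = 2 ^ 2 by norm_num, Real.log_pow]
      have := Real.log_two_lt_d9
      push_cast; linarith
    linarith
  have hl40 : 0 ≤ Real.log (4 * X) := Real.log_nonneg (by linarith)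
  set E0 := X / (((WW X S ps).totient : ℝ) * L ^ 1) with hE0
  have hEb0 := single_bound X (WW X S ps) ps 1 (by linarith) E0 hbv
  have hWp0 : ∀ p : ℕ, p.Prime → p ∣ WW X S ps → (p : ℝ) ≤ X := by
    intro p hp hpW
    have h8 := (mem_PW.1 ((prime_dvd_WW hp).1 hpW)).1
    have h9 : (p : ℝ) ≤ yy X := by exact_mod_cast h8
    have h10 : (yy X : ℝ) ≤ L / 1000 := Nat.floor_le (by positivity)
    have h11 : L ≤ X := by
      have := Real.add_one_le_exp L
      linarith
    linarith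
  have hWp : ∀ p : ℕ, p.Prime → p ∣ W → (p : ℝ) ≤ X := fun p hp hd =>
    hWp0 p hp (hd.trans ⟨W2, hWprod.symm⟩)
  have hWp2 : ∀ p : ℕ, p.Prime → p ∣ W2 → (p : ℝ) ≤ X := fun p hp hd =>
    hWp0 p hp (hd.trans ⟨W, by rw [← hWprod]; ring⟩)
  set E := (W2.totient : ℝ) * E0 + 2 * Real.sqrt (3 * X) * Real.log (3 * X) with hE
  have hEb : ∀ b : ℕ, b.Coprime W → |EPhi X W b| ≤ E := by
    intro b hb
    apply EPhi_sub X (by linarith) W W2 hW0 hW2 hco hWp2 E0 _ b hb
    rw [hWprod]
    exact hEb0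
  have hE0eq : (W2.totient : ℝ) * E0 = X / (W.totient * L) := by
    rw [hE0, ← hWprod, Nat.totient_mul hco]
    push_cast
    field_simp
  have hmat := matrix_sumF X (by linarith) W r Y f hf (by linarith) hWp E hEb
  have hM1 := MPhi_ge X h6
  set M := MPhi X with hM
  have hM0 : 0 < M := by linarith
  have h3X : 2 * Real.sqrt (3 * X) * Real.log (3 * X) ≤ 4 * Real.sqrt X * Real.log (4 * X) := by
    have a1 : Real.sqrt (3 * X) ≤ 2 * Real.sqrt X := by
      rw [show 2 * Real.sqrt X = Real.sqrt (4 * X) by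
        rw [Real.sqrt_mul (by norm_num), show (4 : ℝ) = 2 ^ 2 by norm_num, Real.sqrt_sq (by norm_num)]]
      exact Real.sqrt_le_sqrt (by linarith)
    have a2 : Real.log (3 * X) ≤ Real.log (4 * X) := Real.log_le_log (by linarith) (by linarith)
    have a3 : 0 ≤ Real.log (3 * X) := Real.log_nonneg (by linarith)
    calc 2 * Real.sqrt (3 * X) * Real.log (3 * X) ≤ 2 * (2 * Real.sqrt X) * Real.log (4 * X) := by gcongr
      _ = _ := by ring
  have hLk1 : 1 ≤ L ^ (k + 1) := one_le_pow₀ (by linarith)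
  have hLk : L ^ k ≤ L ^ (k + 1) := pow_le_pow_right₀ (by linarith) (by omega)
  have hLL : L ≤ L ^ (k + 1) := le_self_pow₀ (by linarith) (by omega)
  have hX20 : X / W.totient ≤ 20 * (M / W.totient) := by
    rw [mul_div_assoc']
    gcongr
    linarith
  have hLε : X / (W.totient * L) ≤ ε / 8 * (M / W.totient) := by
    have c1 : X / (W.totient * L) = X / W.totient / L := by rw [div_div]
    rw [c1, div_le_iff₀ hL0]
    refine hX20.trans ?_
    rw [div_le_iff₀ hε] at h8
    have c2 : 0 < M / W.totient := by positivity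
    have c3 : 20 ≤ ε / 8 * L := by linarith
    calc 20 * (M / W.totient) ≤ (ε / 8 * L) * (M / W.totient) := mul_le_mul_of_nonneg_right c3 c2.le
      _ = _ := by ring
  have herr : E + (4 * Y * Real.log (4 * X) + 4 * Real.sqrt X * Real.log (4 * X)) ≤ ε / 4 * (M / W.totient) := by
    have hY0 : (0 : ℝ) ≤ Y := Nat.cast_nonneg _
    have b2 : L * (4 * Y * Real.log (4 * X) + 8 * Real.sqrt X * Real.log (4 * X)) ≤ X / W.totient := by
      rw [le_div_iff₀ hφ0]
      calc L * (4 * Y * Real.log (4 * X) + 8 * Real.sqrt X * Real.log (4 * X)) * W.totient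
          ≤ L ^ (k + 1) * (4 * L ^ (k + 1) * (2 * L) + 8 * Real.exp (L / 2) * (2 * L)) * Real.exp (L / 700) := by
            rw [hsqrt]
            have := hφle.trans hWle
            have hYk := hY.trans hLk
            gcongr
        _ ≤ X := by rw [← hexpL]; exact h2
    have b3 : 4 * Y * Real.log (4 * X) + 8 * Real.sqrt X * Real.log (4 * X) ≤ X / (W.totient * L) := by
      rw [show X / (W.totient * L) = X / W.totient / L by rw [div_div], le_div_iff₀ hL0]
      linarith
    rw [hE, hE0eq]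
    linarith
  have hLM : |LPhi X - M| ≤ ε / 4 * M := by
    refine h1.trans ?_
    nlinarith
  set V : ℝ := SF W r Y f with hV
  have hV0 : 0 ≤ V := SF_nonneg _ _ _ _ hf
  have hK0 : 0 < M / W.totient := by positivity
  have hd : |V * (LPhi X * (1 / (W.totient : ℝ))) - V * (M / W.totient)| ≤ ε / 4 * (V * (M / W.totient)) := by
    have : V * (LPhi X * (1 / (W.totient : ℝ))) - V * (M / W.totient) = (V / W.totient) * (LPhi X - M) := by ring
    rw [this, abs_mul, abs_of_nonneg (by positivity)]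
    calc V / W.totient * |LPhi X - M| ≤ V / W.totient * (ε / 4 * M) := by gcongr
      _ = _ := by ring
  have hm2 : V * (E + (4 * Y * Real.log (4 * X) + 4 * Real.sqrt X * Real.log (4 * X))) ≤
      ε / 4 * (V * (M / W.totient)) := by
    calc _ ≤ V * (ε / 4 * (M / W.totient)) := by gcongr
      _ = _ := by ring
  have hVK : 0 ≤ V * (M / W.totient) := by positivity
  rw [abs_le] at hmat hd ⊢
  constructor
  · nlinarith [hmat.1, hd.1]
  · nlinarith [hmat.2, hd.2]

end Pool.Agent.H560.NP
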