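import Pool.Agent.H560.NP.R9
import Pool.Agent.H560.MQ.Lev8

/-!
No prediction by a periodic function, for all large `N`, with integral shifts of both signs.
-/

set_option autoImplicit false

open Finset Filter Topology
open Pool.Agent.H378R2 Pool.Agent.H510R2.Maier Pool.Agent.T2H52.MG
open Pool.Agent.R529.LD (ev_rpow)
open Pool.Agent.H560.MQ (logN_ev scaleN)

namespace Pool.Agent.H560.NP

open Classical in
/-- the weighted number of the `m`, `|m| ≤ Y`, for which `n - m` is a prime -/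
noncomputable def repr (f : ℤ → ℝ) (Y n : ℕ) : ℝ :=
  ∑ m ∈ (Icc (-(Y : ℤ)) (Y : ℤ)).filter (fun m => ∃ p : ℕ, p.Prime ∧ (n : ℤ) = m + p), f m

open Classical in
/-- the total weight of the `m`, `|m| ≤ Y`, for which `a - m` is prime to `q` -/
noncomputable def mass (f : ℤ → ℝ) (Y q a : ℕ) : ℝ :=
  ∑ m ∈ (Icc (-(Y : ℤ)) (Y : ℤ)).filter (fun m => IsCoprime ((a : ℤ) - m) (q : ℤ)), f m

open Classical in
/-- the transferred weights -/
noncomputable def ft (f : ℤ → ℝ) (Y q a' : ℕ) (h : ℕ) : ℝ :=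
  if (1 ≤ h ∧ h ≤ 2 * Y + 1) ∧ (a' + h).Coprime q then f ((Y : ℤ) + 1 - h) else 0

theorem ft_nonneg (f : ℤ → ℝ) (hf : ∀ m, 0 ≤ f m) (Y q a' h : ℕ) : 0 ≤ ft f Y q a' h := by
  unfold ft
  split_ifs
  · exact hf _
  · exact le_rfl

theorem ft_cop (f : ℤ → ℝ) (Y q a' h : ℕ) (hh : ft f Y q a' h ≠ 0) : (a' + h).Coprime q := by
  unfold ft at hh
  split_ifs at hh with h1
  · exact h1.2
  · exact absurd rfl hh

theorem ft_sum (f : ℤ → ℝ) (Y q a a' : ℕ) (ha : (a' : ℤ) + (Y + 1) ≡ a [ZMOD q]) :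
    ∑ h ∈ Icc 1 (2 * Y + 1), ft f Y q a' h = mass f Y q a := by
  classical
  unfold mass
  rw [Finset.sum_filter]
  symm
  apply Finset.sum_bij' (fun m _ => ((Y : ℤ) + 1 - m).toNat) (fun h _ => (Y : ℤ) + 1 - h)
  · intro m hm
    rw [mem_Icc] at hm ⊢
    omega
  · intro h hh
    rw [mem_Icc] at hh ⊢
    omega
  · intro m hm
    rw [mem_Icc] at hm
    omega
  · intro h hh
    rw [mem_Icc] at hh
    omega
  · intro m hm
    rw [mem_Icc] at hm
    unfold ft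
    have h1 : ((((Y : ℤ) + 1 - m).toNat : ℕ) : ℤ) = (Y : ℤ) + 1 - m := Int.toNat_of_nonneg (by omega)
    have h2 : (Y : ℤ) + 1 - (((Y : ℤ) + 1 - m).toNat : ℕ) = m := by rw [h1]; ring
    have h3 : (1 ≤ ((Y : ℤ) + 1 - m).toNat ∧ ((Y : ℤ) + 1 - m).toNat ≤ 2 * Y + 1) := by omega
    have h4 : IsCoprime ((a : ℤ) - m) (q : ℤ) ↔ (a' + ((Y : ℤ) + 1 - m).toNat).Coprime q := by
      rw [← Nat.isCoprime_iff_coprime]
      push_cast
      rw [h1]
      have h5 : (a' : ℤ) + ((Y : ℤ) + 1 - m) ≡ (a : ℤ) - m [ZMOD q] := by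
        have h6 := ha.sub_right m
        have h7 : (a' : ℤ) + ((Y : ℤ) + 1 - m) = (a' : ℤ) + (Y + 1) - m := by ring
        rw [h7]
        exact h6
      obtain ⟨j, hj⟩ := h5.dvd
      have h8 : (a : ℤ) - m = (a' : ℤ) + ((Y : ℤ) + 1 - m) + q * j := by linarith
      rw [h8]
      exact IsCoprime.add_mul_left_left_iff
    rw [h2]
    by_cases h5 : IsCoprime ((a : ℤ) - m) (q : ℤ)
    · rw [if_pos h5, if_pos ⟨h3, h4.1 h5⟩]
    · rw [if_neg h5, if_neg (fun h6 => h5 (h4.2 h6.2))]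

theorem ft_PF (f : ℤ → ℝ) (Y q a' n' : ℕ) (hn : n' ≡ a' [MOD q]) (hq : 0 < q) (hnq : q ≤ n') :
    PF (ft f Y q a') (2 * Y + 1) n' = repr f Y (n' + (Y + 1)) := by
  classical
  unfold PF repr
  rw [Finset.sum_filter, Finset.sum_filter]
  symm
  apply Finset.sum_bij' (fun m _ => ((Y : ℤ) + 1 - m).toNat) (fun h _ => (Y : ℤ) + 1 - h)
  · intro m hm
    rw [mem_Icc] at hm ⊢
    omega
  · intro h hh
    rw [mem_Icc] at hh ⊢
    omega
  · intro m hm
    rw [mem_Icc] at hm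
    omega
  · intro h hh
    rw [mem_Icc] at hh
    omega
  · intro m hm
    rw [mem_Icc] at hm
    have h1 : ((((Y : ℤ) + 1 - m).toNat : ℕ) : ℤ) = (Y : ℤ) + 1 - m := Int.toNat_of_nonneg (by omega)
    have h2 : (Y : ℤ) + 1 - (((Y : ℤ) + 1 - m).toNat : ℕ) = m := by rw [h1]; ring
    have h3 : (1 ≤ ((Y : ℤ) + 1 - m).toNat ∧ ((Y : ℤ) + 1 - m).toNat ≤ 2 * Y + 1) := by omega
    have h4 : (∃ p : ℕ, p.Prime ∧ ((n' + (Y + 1) : ℕ) : ℤ) = m + p) ↔ (n' + ((Y : ℤ) + 1 - m).toNat).Prime := by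
      constructor
      · rintro ⟨p, hp, h5⟩
        have : p = n' + ((Y : ℤ) + 1 - m).toNat := by
          push_cast at h5
          omega
        rwa [← this]
      · intro hp
        refine ⟨_, hp, ?_⟩
        push_cast
        rw [h1]
        ring
    by_cases h5 : (n' + ((Y : ℤ) + 1 - m).toNat).Prime
    · rw [if_pos (h4.2 h5), if_pos h5]
      unfold ft
      have h6 : (a' + ((Y : ℤ) + 1 - m).toNat).Coprime q := by
        have h7 : (n' + ((Y : ℤ) + 1 - m).toNat).Coprime q := by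
          rw [Nat.Prime.coprime_iff_not_dvd h5]
          intro h8
          have := Nat.le_of_dvd hq h8
          omega
        have h9 : n' + ((Y : ℤ) + 1 - m).toNat ≡ a' + ((Y : ℤ) + 1 - m).toNat [MOD q] := Nat.ModEq.add_right _ hn
        unfold Nat.Coprime at h7 ⊢
        rw [← h9.gcd_eq]
        exact h7
      rw [if_pos ⟨h3, h6⟩, h2]
    · rw [if_neg (fun h6 => h5 (h4.1 h6)), if_neg h5]

/-- a prediction by a function with the period `Q`: `F n = G n * g n`, `G` periodic, `g n` close to `1 / log N` -/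
def Pred (c : ℝ) (N Q : ℕ) (F : ℕ → ℝ) : Prop := ∃ G g : ℕ → ℝ, (∀ n, G (n + Q) = G n) ∧
  ∀ n : ℕ, (N : ℝ) / 3 < n → n ≤ N → |g n * Real.log N - 1| ≤ c ∧ F n = G n * g n

set_option maxHeartbeats 4000000 in
theorem no_prediction (t δ : ℝ) (hδ1 : δ < 1) (q : ℕ) (hq : Squarefree q) : ∃ c : ℝ, 0 < c ∧ ∃ θ : ℝ, θ < 1 ∧
    ∀ᶠ N : ℕ in atTop, ∀ (f : ℤ → ℝ) (Q a : ℕ) (F : ℕ → ℝ), (∀ m, 0 ≤ f m) → 1 ≤ Q →
      (Q : ℝ) ≤ Real.exp ((Real.log N) ^ δ) → Pred c N Q F →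
      (N : ℝ) * Real.exp (-((Real.log N) ^ θ)) ≤ (((Icc 1 N).filter (fun n : ℕ => (N : ℝ) / 3 < n ∧ n ≡ a [MOD q] ∧
        c * (mass f ⌊(Real.log N) ^ t⌋₊ q a / Real.log N) ≤ |repr f ⌊(Real.log N) ^ t⌋₊ n - F n|)).card : ℝ) := by
  classical
  obtain ⟨δ0, hδ0⟩ : ∃ δ0 : ℝ, δ0 = max δ 0 := ⟨_, rfl⟩
  have hδ01 : δ0 < 1 := by rw [hδ0]; exact max_lt hδ1 one_pos
  have hδ00 : 0 ≤ δ0 := by rw [hδ0]; exact le_max_right _ _
  have hδδ0 : δ ≤ δ0 := by rw [hδ0]; exact le_max_left _ _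
  obtain ⟨t0, ht0⟩ : ∃ t0 : ℝ, t0 = max t 0 := ⟨_, rfl⟩
  have ht00 : 0 ≤ t0 := by rw [ht0]; exact le_max_right _ _
  have htt0 : t ≤ t0 := by rw [ht0]; exact le_max_left _ _
  obtain ⟨k0, hk0⟩ := exists_nat_gt t0
  obtain ⟨c, θ, hc0, hc64, hθ0, hθ1, hcore⟩ := core_ev k0 ((δ0 + 1) / 2) (by linarith) q hq
  have hq0 : 0 < q := Nat.pos_of_ne_zero hq.ne_zero
  have hqr : (0 : ℝ) < q := by exact_mod_cast hq0
  refine ⟨c / 4, by positivity, (θ + 1) / 2, by linarith, ?_⟩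
  have hlt := Real.tendsto_log_atTop
  have hN3 : Tendsto (fun N : ℕ => (N : ℝ) / 3) atTop atTop :=
    tendsto_natCast_atTop_atTop.atTop_div_const (by norm_num)
  have hl3 : Tendsto (fun N : ℕ => Real.log ((N : ℝ) / 3)) atTop atTop := hlt.comp hN3
  have e1 := hl3.eventually (ev_rpow δ0 ((δ0 + 1) / 2) 2 (by linarith))
  have e2 := hl3.eventually (ev_rpow t0 k0 (3 * 2 ^ t0) hk0)
  have e3 := logN_ev.eventually (ev_rpow θ ((θ + 1) / 2) 4 (by linarith))
  have e4 : ∀ᶠ N : ℕ in atTop, (Real.log ((N : ℝ) / 3)) ^ k0 ≤ (N : ℝ) / 3 / 2 :=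
    hN3.eventually (Pool.Agent.R529.BU.ev_pow_le k0)
  have e5 : ∀ᶠ N : ℕ in atTop, 1000 * ((Real.log ((N : ℝ) / 3)) ^ (k0 + 1)) ≤ 1000 * ((N : ℝ) / 3 / 2) := by
    filter_upwards [hN3.eventually (Pool.Agent.R529.BU.ev_pow_le (k0 + 1))] with N hN
    linarith
  filter_upwards [hN3.eventually hcore, e1, e2, e3, e5, scaleN δ0 hδ00 hδ01.le, scaleN θ hθ0.le hθ1.le,
    logN_ev.eventually_ge_atTop 4, hl3.eventually_ge_atTop (max 100 (8 / c)), eventually_ge_atTop (3 * (q + 1))]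
    with N g1 g2 g3 g4 g5 g6 g7 g8 g9 g10
  intro f Q a F hf hQ1 hQ hF
  obtain ⟨G, g, hG, hg⟩ := hF
  obtain ⟨Y, hY⟩ : ∃ Y : ℕ, Y = ⌊(Real.log N) ^ t⌋₊ := ⟨_, rfl⟩
  rw [← hY]
  obtain ⟨X, hX⟩ : ∃ X : ℝ, X = (N : ℝ) / 3 := ⟨_, rfl⟩
  rw [← hX] at g1 g2 g3 g5 g6 g7 g9 hg ⊢
  have hN0 : 0 < N := by omega
  have hNr : (0 : ℝ) < N := by exact_mod_cast hN0
  have hNX : (N : ℝ) = 3 * X := by rw [hX]; ring
  have hXpos : 0 < X := by rw [hX]; positivity
  obtain ⟨ℓ, hℓ⟩ : ∃ ℓ : ℝ, ℓ = Real.log N := ⟨_, rfl⟩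
  obtain ⟨L, hL⟩ : ∃ L : ℝ, L = Real.log X := ⟨_, rfl⟩
  rw [← hL] at g1 g2 g3 g5 g9
  rw [← hL, ← hℓ] at g6 g7
  rw [← hℓ] at g4 g8 hQ hg hY ⊢
  have hL100 : 100 ≤ L := (le_max_left _ _).trans g9
  have hL8 : 8 / c ≤ L := (le_max_right _ _).trans g9
  have hℓL : ℓ = L + Real.log 3 := by
    rw [hℓ, hL, hNX, Real.log_mul (by norm_num) hXpos.ne']
    ring
  have h30 : 0 ≤ Real.log 3 := Real.log_nonneg (by norm_num)
  have h32 : Real.log 3 ≤ 2 := by
    rw [Real.log_le_iff_le_exp (by norm_num)]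
    have := Real.add_one_le_exp (2 : ℝ)
    linarith
  have hL0 : 0 < L := by linarith
  have hℓ0 : 0 < ℓ := by linarith
  -- the length
  have hY1 : (Y : ℝ) ≤ 2 ^ t0 * L ^ t0 := by
    have h1 : (Y : ℝ) ≤ ℓ ^ t := by rw [hY]; exact Nat.floor_le (by positivity)
    refine h1.trans ((Real.rpow_le_rpow_of_exponent_le (by linarith) htt0).trans ?_)
    rw [← Real.mul_rpow (by norm_num) hL0.le]
    exact Real.rpow_le_rpow hℓ0.le (by linarith) ht00
  have hLt1 : 1 ≤ L ^ t0 := Real.one_le_rpow (by linarith) ht00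
  have h2t1 : (1 : ℝ) ≤ 2 ^ t0 := Real.one_le_rpow (by norm_num) ht00
  have hY2 : ((2 * Y + 1 : ℕ) : ℝ) ≤ L ^ k0 := by
    rw [Real.rpow_natCast] at g3
    refine le_trans ?_ g3
    push_cast
    nlinarith
  have hYX : ((Y + 1 : ℕ) : ℝ) ≤ X / 200 := by
    have h1 : ((Y + 1 : ℕ) : ℝ) ≤ ((2 * Y + 1 : ℕ) : ℝ) := by
      push_cast
      have : (0 : ℝ) ≤ Y := Nat.cast_nonneg _
      linarith
    have h2 : L ^ (k0 + 1) = L ^ k0 * L := pow_succ _ _
    have h3 : 0 < L ^ k0 := by positivity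
    have h4 : L ^ k0 * 100 ≤ L ^ k0 * L := mul_le_mul_of_nonneg_left hL100 h3.le
    linarith
  -- the class
  obtain ⟨a', ha'⟩ : ∃ a' : ℕ, a' = a + (q - 1) * (Y + 1) := ⟨_, rfl⟩
  have haN : a' + (Y + 1) = a + q * (Y + 1) := by
    rw [ha']
    obtain ⟨q', rfl⟩ : ∃ q', q = q' + 1 := ⟨q - 1, by omega⟩
    simp only [Nat.add_sub_cancel]
    ring
  have haZ : (a' : ℤ) + (Y + 1) ≡ a [ZMOD q] := by
    have h1 : (a' : ℤ) + (Y + 1) = a + q * (Y + 1) := by exact_mod_cast haN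
    rw [h1]
    exact (Int.modEq_iff_dvd.2 ⟨-(Y + 1), by ring⟩)
  have hQ' : (Q : ℝ) ≤ Real.exp (L ^ ((δ0 + 1) / 2)) := by
    refine hQ.trans (Real.exp_le_exp.2 ?_)
    exact (Real.rpow_le_rpow_of_exponent_le (by linarith) hδδ0).trans (g6.2.trans g2)
  have hlam : ∀ n : ℕ, X < n → (n : ℝ) < 3 * X → n + (Y + 1) ≤ N →
      (1 - c) * L ≤ 1 / g (n + (Y + 1)) ∧ 1 / g (n + (Y + 1)) ≤ (1 + c) * L ∧ 0 < g (n + (Y + 1)) ∧
        (1 / 2) / ℓ ≤ g (n + (Y + 1)) := by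
    intro n hn1 hn2 hn3
    have h1 := (hg (n + (Y + 1)) (by push_cast; have : (0 : ℝ) ≤ Y := Nat.cast_nonneg _; linarith) hn3).1
    rw [abs_le] at h1
    have h2 : (1 - c / 4) / ℓ ≤ g (n + (Y + 1)) := by
      rw [div_le_iff₀ hℓ0]; linarith [h1.1]
    have h3 : g (n + (Y + 1)) ≤ (1 + c / 4) / ℓ := by
      rw [le_div_iff₀ hℓ0]; linarith [h1.2]
    have h4 : 0 < g (n + (Y + 1)) := lt_of_lt_of_le (by apply div_pos _ hℓ0; linarith) h2
    refine ⟨?_, ?_, h4, ?_⟩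
    · rw [le_div_iff₀ h4]
      calc (1 - c) * L * g (n + (Y + 1)) ≤ (1 - c) * ℓ * ((1 + c / 4) / ℓ) := by
            apply mul_le_mul _ h3 h4.le
            · apply mul_nonneg (by linarith) hℓ0.le
            · apply mul_le_mul_of_nonneg_left _ (by linarith)
              linarith
        _ = (1 - c) * (1 + c / 4) := by field_simp
        _ ≤ 1 := by nlinarith
    · rw [div_le_iff₀ h4]
      have h5 : ℓ ≤ (1 + c / 4) * L := by
        rw [hℓL]
        rw [div_le_iff₀ hc0] at hL8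
        nlinarith
      have h6 : (1 + c / 4) * L * ((1 - c / 4) / ℓ) ≥ 1 - c / 4 := by
        rw [ge_iff_le, mul_div_assoc', le_div_iff₀ hℓ0]
        nlinarith
      calc (1 : ℝ) ≤ (1 + c) / (1 + c / 4) * (1 - c / 4) := by
            rw [div_mul_eq_mul_div, le_div_iff₀ (by linarith)]
            nlinarith
        _ ≤ (1 + c) / (1 + c / 4) * ((1 + c / 4) * L * ((1 - c / 4) / ℓ)) := by
            apply mul_le_mul_of_nonneg_left h6
            apply div_nonneg (by linarith) (by linarith)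
        _ = (1 + c) * L * ((1 - c / 4) / ℓ) := by
            field_simp
        _ ≤ (1 + c) * L * g (n + (Y + 1)) := by
            apply mul_le_mul_of_nonneg_left h2
            positivity
    · refine le_trans ?_ h2
      apply div_le_div_of_nonneg_right _ hℓ0.le
      linarith
  -- the functions
  obtain ⟨lam, hlamdef⟩ : ∃ lam : ℕ → ℝ, lam = fun n => if n + (Y + 1) ≤ N then 1 / g (n + (Y + 1)) else L := ⟨_, rfl⟩
  have hlam2 : ∀ n : ℕ, X < n → (n : ℝ) < 3 * X → (1 - c) * L ≤ lam n ∧ lam n ≤ (1 + c) * L := by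
    intro n hn1 hn2
    rw [hlamdef]
    simp only
    split_ifs with h1
    · obtain ⟨p1, p2, -, -⟩ := hlam n hn1 hn2 h1
      exact ⟨p1, p2⟩
    · constructor
      · nlinarith
      · nlinarith
  have hmain := g1 Q a' (2 * Y + 1) (ft f Y q a') (fun n => G (n + (Y + 1))) lam hQ1 hQ' hY2 (ft_nonneg f hf Y q a')
    (ft_cop f Y q a') (fun n => by
      show G (n + Q + (Y + 1)) = G (n + (Y + 1))
      rw [show n + Q + (Y + 1) = n + (Y + 1) + Q by ring]
      exact hG _) hlam2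
  rw [ft_sum f Y q a a' haZ] at hmain
  -- the injection
  have hinj : ((Icc 1 ⌊3 * X⌋₊).filter (fun n : ℕ => X < n ∧ (n : ℝ) < Real.exp 1 * X ∧
        n ≡ a' [MOD q] ∧ c * mass f Y q a ≤ |lam n * PF (ft f Y q a') (2 * Y + 1) n - G (n + (Y + 1))|)).card ≤
      ((Icc 1 N).filter (fun n : ℕ => X < n ∧ n ≡ a [MOD q] ∧
        c / 4 * (mass f Y q a / ℓ) ≤ |repr f Y n - F n|)).card := by
    apply Finset.card_le_card_of_injOn (fun n => n + (Y + 1))
    · intro n hn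
      simp only [coe_filter, mem_Icc, Set.mem_setOf_eq] at hn
      obtain ⟨⟨n1, n2⟩, n3, n4, n5, n6⟩ := hn
      have hnN : n + (Y + 1) ≤ N := by
        have h1 : ((n + (Y + 1) : ℕ) : ℝ) ≤ N := by
          rw [Nat.cast_add, hNX]
          have := Real.exp_one_lt_d9
          nlinarith
        exact_mod_cast h1
      have he3 : (n : ℝ) < 3 * X := by
        have := Real.exp_one_lt_d9
        nlinarith
      obtain ⟨-, -, p3, p4⟩ := hlam n n3 he3 hnN
      have hqn : q ≤ n := by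
        have h1 : (q : ℝ) ≤ n := by
          have h2 : ((3 * (q + 1) : ℕ) : ℝ) ≤ N := by exact_mod_cast g10
          push_cast at h2
          linarith
        exact_mod_cast h1
      rw [ft_PF f Y q a' n n5 hq0 hqn] at n6
      have hlamn : lam n = 1 / g (n + (Y + 1)) := by
        rw [hlamdef]
        simp only
        rw [if_pos hnN]
      rw [hlamn] at n6
      have hXn : X < ((n + (Y + 1) : ℕ) : ℝ) := by
        push_cast
        have : (0 : ℝ) ≤ Y := Nat.cast_nonneg _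
        linarith
      have hFn := (hg (n + (Y + 1)) hXn hnN).2
      simp only [coe_filter, mem_Icc, Set.mem_setOf_eq]
      refine ⟨⟨by omega, hnN⟩, hXn, ?_, ?_⟩
      · have h1 : n + (Y + 1) ≡ a' + (Y + 1) [MOD q] := Nat.ModEq.add_right _ n5
        rw [haN] at h1
        refine h1.trans ?_
        exact Nat.add_mul_mod_self_left a q (Y + 1)
      · rw [hFn]
        have h1 : |repr f Y (n + (Y + 1)) - G (n + (Y + 1)) * g (n + (Y + 1))| =
            g (n + (Y + 1)) * |1 / g (n + (Y + 1)) * repr f Y (n + (Y + 1)) - G (n + (Y + 1))| := by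
          rw [← abs_of_pos p3, ← abs_mul, abs_of_pos p3]
          congr 1
          field_simp
        rw [h1]
        have hm0 : 0 ≤ mass f Y q a := Finset.sum_nonneg fun m _ => hf m
        calc c / 4 * (mass f Y q a / ℓ) ≤ (1 / 2) / ℓ * (c * mass f Y q a) := by
              have h2 : (1 / 2) / ℓ * (c * mass f Y q a) = c / 2 * (mass f Y q a / ℓ) := by ring
              rw [h2]
              apply mul_le_mul_of_nonneg_right (by linarith)
              positivity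
          _ ≤ g (n + (Y + 1)) * |1 / g (n + (Y + 1)) * repr f Y (n + (Y + 1)) - G (n + (Y + 1))| := by
              apply mul_le_mul p4 n6 (by positivity) p3.le
    · intro x _ y _ hxy
      simp only at hxy
      omega
  refine le_trans ?_ (hmain.trans (Nat.cast_le.2 hinj))
  -- the frequency
  have h1 : Real.exp (-(ℓ ^ ((θ + 1) / 2))) ≤ 1 / 3 * Real.exp (-(L ^ θ)) := by
    have h2 : Real.log 3 + L ^ θ ≤ ℓ ^ ((θ + 1) / 2) := by
      have h3 : L ^ θ ≤ ℓ ^ θ := g7.1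
      have h4 : 1 ≤ L ^ θ := Real.one_le_rpow (by linarith) hθ0.le
      linarith
    have h3 : (1 : ℝ) / 3 = Real.exp (-Real.log 3) := by
      rw [Real.exp_neg, Real.exp_log (by norm_num)]
      norm_num
    rw [h3, ← Real.exp_add]
    apply Real.exp_le_exp.2
    linarith
  calc (N : ℝ) * Real.exp (-(ℓ ^ ((θ + 1) / 2))) ≤ N * (1 / 3 * Real.exp (-(L ^ θ))) := by gcongr
    _ = X * Real.exp (-(L ^ θ)) := by rw [hNX]; ring

end Pool.Agent.H560.NP
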