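import Mathlib

/-!
Truncated inclusion and exclusion: the integers of an interval without prime factors from a set of primes, when the
members of the interval have at most `k` of these prime factors.
-/

set_option autoImplicit false

open Finset

namespace Pool.Agent.H560.NP

/-- the subsets with at most `k` elements -/
def PK (D : Finset ℕ) (k : ℕ) : Finset (Finset ℕ) := D.powerset.filter (fun d => d.card ≤ k)

/-- the truncated sum -/
noncomputable def AJ (D : Finset ℕ) (k : ℕ) : ℝ := ∑ d ∈ PK D k, (-1 : ℝ) ^ d.card * ∏ p ∈ d, (1 : ℝ) / p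

/-- the elementary symmetric sum -/
noncomputable def EJ (D : Finset ℕ) (k : ℕ) : ℝ := ∑ d ∈ D.powersetCard k, ∏ p ∈ d, (1 : ℝ) / p

theorem AJ_succ (D : Finset ℕ) (k : ℕ) : AJ D (k + 1) = AJ D k + (-1 : ℝ) ^ (k + 1) * EJ D (k + 1) := by
  classical
  unfold AJ EJ PK
  have h1 : D.powerset.filter (fun d => d.card ≤ k + 1) =
      D.powerset.filter (fun d => d.card ≤ k) ∪ D.powersetCard (k + 1) := by
    ext d
    simp only [mem_filter, mem_powerset, mem_union, mem_powersetCard]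
    constructor
    · rintro ⟨h1, h2⟩
      rcases Nat.lt_or_ge k d.card with h | h
      · exact Or.inr ⟨h1, by omega⟩
      · exact Or.inl ⟨h1, h⟩
    · rintro (⟨h1, h2⟩ | ⟨h1, h2⟩)
      · exact ⟨h1, by omega⟩
      · exact ⟨h1, by omega⟩
  rw [h1, Finset.sum_union, Finset.mul_sum]
  · congr 1
    apply Finset.sum_congr rfl
    intro d hd
    rw [(mem_powersetCard.1 hd).2]
  · rw [Finset.disjoint_left]
    intro d hd hd2
    rw [mem_filter] at hd
    have := (mem_powersetCard.1 hd2).2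
    omega

theorem EJ_nonneg (D : Finset ℕ) (k : ℕ) : 0 ≤ EJ D k :=
  Finset.sum_nonneg fun d _ => Finset.prod_nonneg fun p _ => by positivity

/-- double counting -/
theorem EJ_double (D : Finset ℕ) (x : ℕ → ℝ) (j : ℕ) :
    ((j : ℝ) + 1) * ∑ d ∈ D.powersetCard (j + 1), ∏ p ∈ d, x p =
      ∑ d ∈ D.powersetCard j, (∏ p ∈ d, x p) * ∑ p ∈ D \ d, x p := by
  classical
  have h1 : ((j : ℝ) + 1) * ∑ d ∈ D.powersetCard (j + 1), ∏ p ∈ d, x p =
      ∑ d ∈ D.powersetCard (j + 1), ∑ p ∈ d, (∏ q ∈ d.erase p, x q) * x p := by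
    rw [Finset.mul_sum]
    apply Finset.sum_congr rfl
    intro d hd
    have h2 : ∀ p ∈ d, (∏ q ∈ d.erase p, x q) * x p = ∏ q ∈ d, x q := fun p hp =>
      Finset.prod_erase_mul d x hp
    rw [Finset.sum_congr rfl h2, Finset.sum_const, (mem_powersetCard.1 hd).2, nsmul_eq_mul]
    push_cast
    ring
  rw [h1]
  simp_rw [Finset.mul_sum]
  rw [Finset.sum_sigma', Finset.sum_sigma']
  refine Finset.sum_bij' (fun (a : (_ : Finset ℕ) × ℕ) _ => (⟨a.1.erase a.2, a.2⟩ : (_ : Finset ℕ) × ℕ))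
    (fun (a : (_ : Finset ℕ) × ℕ) _ => (⟨insert a.2 a.1, a.2⟩ : (_ : Finset ℕ) × ℕ)) ?_ ?_ ?_ ?_ ?_
  · rintro ⟨d, p⟩ h
    rw [mem_sigma, mem_powersetCard] at h
    obtain ⟨⟨h2, h3⟩, h4⟩ := h
    simp only at h2 h3 h4
    rw [mem_sigma, mem_powersetCard, mem_sdiff]
    refine ⟨⟨(Finset.erase_subset _ _).trans h2, ?_⟩, h2 h4, ?_⟩
    · rw [Finset.card_erase_of_mem h4, h3]
      rfl
    · simp
  · rintro ⟨d, p⟩ h
    rw [mem_sigma, mem_powersetCard, mem_sdiff] at h
    obtain ⟨⟨h2, h3⟩, h4, h5⟩ := h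
    simp only at h2 h3 h4 h5
    rw [mem_sigma, mem_powersetCard]
    refine ⟨⟨Finset.insert_subset h4 h2, ?_⟩, Finset.mem_insert_self _ _⟩
    rw [Finset.card_insert_of_notMem h5, h3]
  · rintro ⟨d, p⟩ h
    rw [mem_sigma] at h
    simp only at h
    simp only [Finset.insert_erase h.2]
  · rintro ⟨d, p⟩ h
    rw [mem_sigma, mem_sdiff] at h
    simp only at h
    simp only [Finset.erase_insert h.2.2]
  · rintro ⟨d, p⟩ h
    rfl

/-- lower bound for the elementary symmetric sums -/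
theorem EJ_lower (D : Finset ℕ) (m α : ℝ) (hm : ∀ p ∈ D, (1 : ℝ) / p ≤ m) (hα0 : 0 ≤ α)
    (hα : 2 * α ≤ ∑ p ∈ D, (1 : ℝ) / p) (k : ℕ) (hk : (k : ℝ) * m ≤ α) :
    ∀ j : ℕ, j ≤ k → α ^ j / j.factorial ≤ EJ D j := by
  classical
  intro j
  induction j with
  | zero =>
    intro _
    unfold EJ
    simp
  | succ j ih =>
    intro hj
    have ih' := ih (by omega)
    have h1 := EJ_double D (fun p => (1 : ℝ) / p) j
    have h2 : ∑ d ∈ D.powersetCard j, (∏ p ∈ d, (1 : ℝ) / p) * α ≤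
        ∑ d ∈ D.powersetCard j, (∏ p ∈ d, (1 : ℝ) / p) * ∑ p ∈ D \ d, (1 : ℝ) / p := by
      apply Finset.sum_le_sum
      intro d hd
      obtain ⟨h3, h4⟩ := mem_powersetCard.1 hd
      apply mul_le_mul_of_nonneg_left _ (Finset.prod_nonneg fun p _ => by positivity)
      have h5 : ∑ p ∈ D \ d, (1 : ℝ) / p + ∑ p ∈ d, (1 : ℝ) / p = ∑ p ∈ D, (1 : ℝ) / p := Finset.sum_sdiff h3
      have h6 : ∑ p ∈ d, (1 : ℝ) / p ≤ j * m := by
        calc ∑ p ∈ d, (1 : ℝ) / p ≤ ∑ p ∈ d, m := Finset.sum_le_sum fun p hp => hm p (h3 hp)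
          _ = j * m := by rw [Finset.sum_const, h4, nsmul_eq_mul]
      have h7 : (j : ℝ) * m ≤ α := by
        rcases le_or_gt 0 m with h8 | h8
        · have : (j : ℝ) ≤ k := by exact_mod_cast (by omega : j ≤ k)
          exact (mul_le_mul_of_nonneg_right this h8).trans hk
        · have : (j : ℝ) * m ≤ 0 := mul_nonpos_of_nonneg_of_nonpos (Nat.cast_nonneg _) h8.le
          linarith
      linarith
    rw [← h1, ← Finset.sum_mul] at h2
    change (∑ d ∈ D.powersetCard j, ∏ p ∈ d, (1 : ℝ) / p) * α ≤ ((j : ℝ) + 1) * EJ D (j + 1) at h2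
    have h3 : α ^ j / j.factorial * α ≤ ((j : ℝ) + 1) * EJ D (j + 1) :=
      (mul_le_mul_of_nonneg_right ih' hα0).trans h2
    have h4 : (0 : ℝ) < (j : ℝ) + 1 := by positivity
    rw [Nat.factorial_succ]
    push_cast
    rw [show α ^ (j + 1) / (((j : ℝ) + 1) * (j.factorial : ℝ)) = (α ^ j / j.factorial * α) / ((j : ℝ) + 1) by
      rw [pow_succ]; field_simp, div_le_iff₀ h4]
    linarith

theorem PK_card (D : Finset ℕ) (hD : ∀ p ∈ D, p.Prime) (z k : ℕ) (hz : ∀ p ∈ D, p ≤ z) (hz1 : 1 ≤ z) :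
    (PK D k).card ≤ z ^ k := by
  classical
  have h1 : ((PK D k).image (fun d => ∏ p ∈ d, p)).card = (PK D k).card := by
    apply Finset.card_image_of_injOn
    intro d hd e he h
    simp only [PK, coe_filter, mem_powerset, Set.mem_setOf_eq] at hd he
    have h2 := Nat.primeFactors_prod (s := d) (fun p hp => hD p (hd.1 hp))
    have h3 := Nat.primeFactors_prod (s := e) (fun p hp => hD p (he.1 hp))
    simp only at h
    rw [← h2, ← h3, h]
  rw [← h1]
  have h2 : (PK D k).image (fun d => ∏ p ∈ d, p) ⊆ Icc 1 (z ^ k) := by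
    intro m hm
    obtain ⟨d, hd, rfl⟩ := mem_image.1 hm
    simp only [PK, mem_filter, mem_powerset] at hd
    rw [mem_Icc]
    constructor
    · exact Finset.prod_pos fun p hp => (hD p (hd.1 hp)).pos
    · calc ∏ p ∈ d, p ≤ ∏ p ∈ d, z := Finset.prod_le_prod' fun p hp => hz p (hd.1 hp)
        _ = z ^ d.card := by rw [Finset.prod_const]
        _ ≤ z ^ k := Nat.pow_le_pow_right hz1 hd.2
  refine (Finset.card_le_card h2).trans ?_
  simp

/-- the number of the multiples -/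
theorem mult_count (U h m : ℕ) (hm : 0 < m) :
    |(((Icc 1 U).filter (fun b => m ∣ b + h)).card : ℝ) - (U : ℝ) / m| ≤ 1 := by
  have h1 : ((Icc 1 U).filter (fun b => m ∣ b + h)).card = ((Ioc h (U + h)).filter (fun b => m ∣ b)).card := by
    apply Finset.card_bij (fun b _ => b + h)
    · intro b hb
      rw [mem_filter, mem_Icc] at hb
      rw [mem_filter, mem_Ioc]
      exact ⟨by omega, hb.2⟩
    · intro a _ b _ hab
      omega
    · intro b hb
      rw [mem_filter, mem_Ioc] at hb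
      refine ⟨b - h, ?_, by omega⟩
      rw [mem_filter, mem_Icc, show b - h + h = b by omega]
      exact ⟨by omega, hb.2⟩
  have h2 : ((Ioc h (U + h)).filter (fun b => m ∣ b)).card = (U + h) / m - h / m := by
    have h3 : (Ioc 0 (U + h)).filter (fun b => m ∣ b) =
        (Ioc 0 h).filter (fun b => m ∣ b) ∪ (Ioc h (U + h)).filter (fun b => m ∣ b) := by
      rw [← Finset.filter_union]
      congr 1
      ext x
      simp only [mem_Ioc, mem_union]
      omega
    have h4 : Disjoint ((Ioc 0 h).filter (fun b => m ∣ b)) ((Ioc h (U + h)).filter (fun b => m ∣ b)) := by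
      rw [Finset.disjoint_left]
      intro x hx hx2
      rw [mem_filter, mem_Ioc] at hx hx2
      omega
    have h5 := congrArg Finset.card h3
    rw [Finset.card_union_of_disjoint h4, Nat.Ioc_filter_dvd_card_eq_div, Nat.Ioc_filter_dvd_card_eq_div] at h5
    omega
  rw [h1, h2]
  have hle : h / m ≤ (U + h) / m := Nat.div_le_div_right (by omega)
  rw [Nat.cast_sub hle]
  have hm0 : (0 : ℝ) < m := by exact_mod_cast hm
  have a1 : ((h / m : ℕ) : ℝ) ≤ (h : ℝ) / m := Nat.cast_div_le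
  have a2 : (((U + h) / m : ℕ) : ℝ) ≤ ((U + h : ℕ) : ℝ) / m := Nat.cast_div_le
  have a3 : (h : ℝ) / m < ((h / m : ℕ) : ℝ) + 1 := by
    rw [div_lt_iff₀ hm0]
    have := Nat.lt_div_mul_add (a := h) hm
    have h7 : h < (h / m + 1) * m := by
      have := Nat.div_add_mod h m
      have := Nat.mod_lt h hm
      nlinarith
    exact_mod_cast h7
  have a4 : ((U + h : ℕ) : ℝ) / m < (((U + h) / m : ℕ) : ℝ) + 1 := by
    rw [div_lt_iff₀ hm0]
    have h7 : U + h < ((U + h) / m + 1) * m := by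
      have := Nat.div_add_mod (U + h) m
      have := Nat.mod_lt (U + h) hm
      nlinarith
    exact_mod_cast h7
  have a5 : ((U + h : ℕ) : ℝ) / m = (U : ℝ) / m + h / m := by
    push_cast
    rw [add_div]
  rw [a5] at a2 a4
  rw [abs_le]
  constructor <;> linarith

/-- the indicator function -/
theorem ind_eq (D : Finset ℕ) (hD : ∀ p ∈ D, p.Prime) (w k m : ℕ) (hw : ∀ p ∈ D, w < p) (hm0 : 0 < m)
    (hm : m < (w + 1) ^ (k + 1)) :
    (if ∀ p ∈ D, ¬ p ∣ m then (1 : ℝ) else 0) = ∑ d ∈ PK D k, (-1 : ℝ) ^ d.card * (if ∏ p ∈ d, p ∣ m then 1 else 0) := by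
  classical
  have hdiv : ∀ d ⊆ D, ((∏ p ∈ d, p) ∣ m ↔ ∀ p ∈ d, p ∣ m) := by
    intro d hd
    constructor
    · intro h p hp
      exact (Finset.dvd_prod_of_mem _ hp).trans h
    · intro h
      exact Finset.prod_primes_dvd m (fun p hp => (hD p (hd hp)).prime) h
  have h1 : ∑ d ∈ PK D k, (-1 : ℝ) ^ d.card * (if ∏ p ∈ d, p ∣ m then 1 else 0) =
      ∑ d ∈ D.powerset, (-1 : ℝ) ^ d.card * (if ∏ p ∈ d, p ∣ m then 1 else 0) := by
    unfold PK
    rw [Finset.sum_filter]
    apply Finset.sum_congr rfl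
    intro d hd
    rw [mem_powerset] at hd
    split_ifs with h2 h3 h3
    · rfl
    · rfl
    · exfalso
      have h4 := Nat.le_of_dvd hm0 h3
      have h5 : (w + 1) ^ d.card ≤ ∏ p ∈ d, p := by
        rw [← Finset.prod_const]
        exact Finset.prod_le_prod' fun p hp => hw p (hd hp)
      have h6 : (w + 1) ^ (k + 1) ≤ (w + 1) ^ d.card := Nat.pow_le_pow_right (by omega) (by omega)
      omega
    · simp
  have h2 : ∑ d ∈ D.powerset, (-1 : ℝ) ^ d.card * (if ∏ p ∈ d, p ∣ m then 1 else 0) =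
      ∑ d ∈ (D.filter (fun p => p ∣ m)).powerset, (-1 : ℝ) ^ d.card := by
    have h3 : (D.filter (fun p => p ∣ m)).powerset = D.powerset.filter (fun d => ∏ p ∈ d, p ∣ m) := by
      ext d
      rw [mem_powerset, mem_filter, mem_powerset]
      constructor
      · intro h
        have h4 : d ⊆ D := h.trans (Finset.filter_subset _ _)
        exact ⟨h4, (hdiv d h4).2 fun p hp => (mem_filter.1 (h hp)).2⟩
      · rintro ⟨h4, h5⟩ p hp
        exact mem_filter.2 ⟨h4 hp, (hdiv d h4).1 h5 p hp⟩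
    rw [h3, Finset.sum_filter]
    apply Finset.sum_congr rfl
    intro d _
    split_ifs <;> simp
  rw [h1, h2]
  have h3 := Finset.sum_powerset_neg_one_pow_card (x := D.filter (fun p => p ∣ m))
  have h4 : ∑ d ∈ (D.filter (fun p => p ∣ m)).powerset, (-1 : ℝ) ^ d.card =
      ((∑ d ∈ (D.filter (fun p => p ∣ m)).powerset, (-1 : ℤ) ^ d.card : ℤ) : ℝ) := by
    push_cast
    rfl
  rw [h4, h3]
  by_cases h5 : ∀ p ∈ D, ¬ p ∣ m
  · rw [if_pos h5, if_pos]
    · simp
    · exact Finset.filter_eq_empty_iff.2 fun p hp => h5 p hp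
  · rw [if_neg h5, if_neg]
    · simp
    · intro h6
      exact h5 fun p hp => Finset.filter_eq_empty_iff.1 h6 hp

/-- the number of the integers without prime factors from `D` in short intervals -/
theorem sift_count (D : Finset ℕ) (hD : ∀ p ∈ D, p.Prime) (w z k U h : ℕ) (hw : ∀ p ∈ D, w < p) (hz : ∀ p ∈ D, p ≤ z)
    (hz1 : 1 ≤ z) (hU : U + h < (w + 1) ^ (k + 1)) :
    |(((Icc 1 U).filter (fun b => ∀ p ∈ D, ¬ p ∣ b + h)).card : ℝ) - U * AJ D k| ≤ (z : ℝ) ^ k := by
  classical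
  have h1 : (((Icc 1 U).filter (fun b => ∀ p ∈ D, ¬ p ∣ b + h)).card : ℝ) =
      ∑ d ∈ PK D k, (-1 : ℝ) ^ d.card * (((Icc 1 U).filter (fun b => (∏ p ∈ d, p) ∣ b + h)).card : ℝ) := by
    rw [Finset.card_filter]
    push_cast
    have h2 : ∀ b ∈ Icc 1 U, (if ∀ p ∈ D, ¬ p ∣ b + h then (1 : ℝ) else 0) =
        ∑ d ∈ PK D k, (-1 : ℝ) ^ d.card * (if ∏ p ∈ d, p ∣ b + h then 1 else 0) := by
      intro b hb
      rw [mem_Icc] at hb
      exact ind_eq D hD w k (b + h) hw (by omega) (by omega)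
    rw [Finset.sum_congr rfl h2, Finset.sum_comm]
    apply Finset.sum_congr rfl
    intro d _
    rw [← Finset.mul_sum, Finset.card_filter]
    push_cast
    rfl
  have h2 : (U : ℝ) * AJ D k = ∑ d ∈ PK D k, (-1 : ℝ) ^ d.card * ((U : ℝ) / ((∏ p ∈ d, p : ℕ) : ℝ)) := by
    unfold AJ
    rw [Finset.mul_sum]
    apply Finset.sum_congr rfl
    intro d _
    push_cast
    rw [Finset.prod_div_distrib, Finset.prod_const_one]
    ring
  rw [h1, h2, ← Finset.sum_sub_distrib]
  refine (Finset.abs_sum_le_sum_abs _ _).trans ?_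
  have h3 : ∀ d ∈ PK D k, |(-1 : ℝ) ^ d.card * (((Icc 1 U).filter (fun b => (∏ p ∈ d, p) ∣ b + h)).card : ℝ) -
      (-1 : ℝ) ^ d.card * ((U : ℝ) / ((∏ p ∈ d, p : ℕ) : ℝ))| ≤ 1 := by
    intro d hd
    rw [← mul_sub, abs_mul, abs_pow, abs_neg, abs_one, one_pow, one_mul]
    apply mult_count
    apply Finset.prod_pos
    intro p hp
    exact (hD p ((mem_powerset.1 (mem_filter.1 hd).1) hp)).pos
  refine (Finset.sum_le_sum h3).trans ?_
  rw [Finset.sum_const, nsmul_eq_mul, mul_one]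
  exact_mod_cast PK_card D hD z k hz hz1

end Pool.Agent.H560.NP
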