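import Pool.Agent.H560.NP.R2
import Pool.Agent.H560.MQ.Gen
import Pool.Graph.R_seed8.Helper923.HMertens

/-!
The sieving primes between two powers of `log X`.
-/

set_option autoImplicit false

open Finset Filter Topology
open Pool.Agent.H378R2 Pool.Agent.H510R2.Maier Pool.Agent.T2H52.MG
open Pool.Agent.R529.LD (ev_rpow)

namespace Pool.Agent.H560.NP

/-- the sieving primes -/
noncomputable def DD (X : ℝ) (w z : ℕ) (S : Finset ℕ) (ps Q : ℕ) : Finset ℕ :=
  (PZ X z S ps).filter (fun p => w < p ∧ ¬ p ∣ Q)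

/-- the other primes of the modulus -/
noncomputable def AS (X : ℝ) (w z : ℕ) (S : Finset ℕ) (ps Q : ℕ) : Finset ℕ :=
  (PZ X z S ps).filter (fun p => ¬ (w < p ∧ ¬ p ∣ Q))

/-- a power of `log X` -/
noncomputable def LL (κ : ℝ) (X : ℝ) : ℕ := ⌊(Real.log X) ^ κ⌋₊

theorem sum_union_le (A B : Finset ℕ) (f : ℕ → ℝ) (hf : ∀ n, 0 ≤ f n) : ∑ n ∈ A ∪ B, f n ≤ ∑ n ∈ A, f n + ∑ n ∈ B, f n := by
  have h := Finset.sum_union_inter (s₁ := A) (s₂ := B) (f := f)
  have h2 : 0 ≤ ∑ n ∈ A ∩ B, f n := Finset.sum_nonneg fun n _ => hf n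
  linarith

theorem Q_factors (Q w : ℕ) (hQ : 1 ≤ Q) (hw : 3 ≤ w) :
    ∑ p ∈ Q.primeFactors.filter (fun p => w < p), (1 : ℝ) / p ≤ Real.log Q / w := by
  set T := Q.primeFactors.filter (fun p => w < p) with hT
  have hw0 : (0 : ℝ) < w := by exact_mod_cast (by omega : 0 < w)
  have h1 : w ^ T.card ≤ Q := by
    calc w ^ T.card = ∏ p ∈ T, w := by rw [Finset.prod_const]
      _ ≤ ∏ p ∈ T, p := Finset.prod_le_prod' fun p hp => (mem_filter.1 hp).2.le
      _ ≤ ∏ p ∈ Q.primeFactors, p := by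
          apply Finset.prod_le_prod_of_subset_of_one_le' (Finset.filter_subset _ _)
          intro p hp _
          exact (Nat.prime_of_mem_primeFactors hp).one_lt.le
      _ ≤ Q := Nat.le_of_dvd (by omega) (Nat.prod_primeFactors_dvd Q)
  have h2 : (T.card : ℝ) ≤ Real.log Q := by
    have h3 : ((w : ℝ)) ^ T.card ≤ Q := by exact_mod_cast h1
    have h4 := Real.log_le_log (by positivity) h3
    rw [Real.log_pow] at h4
    have h5 : 1 ≤ Real.log w := by
      rw [Real.le_log_iff_exp_le hw0]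
      have := Real.exp_one_lt_d9
      have h6 : (3 : ℝ) ≤ w := by exact_mod_cast hw
      linarith
    nlinarith [(Nat.cast_nonneg T.card : (0 : ℝ) ≤ T.card)]
  calc ∑ p ∈ T, (1 : ℝ) / p ≤ ∑ p ∈ T, (1 : ℝ) / w := by
        apply Finset.sum_le_sum
        intro p hp
        apply one_div_le_one_div_of_le hw0
        exact_mod_cast (mem_filter.1 hp).2.le
    _ = T.card / w := by rw [Finset.sum_const, nsmul_eq_mul]; ring
    _ ≤ _ := by gcongr

/-- many sieving primes -/
theorem e1_lower (δ κ θ : ℝ) (hδ : δ < κ) (hκ : 0 < κ) (hκθ : κ < θ) (hθ1 : θ < 1) : ∀ᶠ X : ℝ in atTop,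
    ∀ (ps : ℕ) (S : Finset ℕ) (Q : ℕ), GoodP 1 ps → GoodS X S → 1 ≤ Q → (Q : ℝ) ≤ Real.exp ((Real.log X) ^ δ) →
      2 * (Real.log (θ / κ) / 4) ≤ ∑ p ∈ DD X (LL κ X) (LL θ X) S ps Q, (1 : ℝ) / p := by
  obtain ⟨C, hC0, hC⟩ := Pool.Agent.Helper923.HMertens.mertens_ratio
  obtain ⟨α, hα⟩ : ∃ α : ℝ, α = Real.log (θ / κ) / 4 := ⟨_, rfl⟩
  have hr : 1 < θ / κ := by rw [one_lt_div hκ]; exact hκθ
  have hα0 : 0 < α := by rw [hα]; have := Real.log_pos hr; positivity
  have hθ : 0 < θ := by linarith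
  have hlt := Real.tendsto_log_atTop
  have e1 := hlt.eventually ((tendsto_rpow_atTop hκ).eventually_ge_atTop (max 8 (8 / α)))
  have e2 := hlt.eventually (ev_rpow δ κ (8 / α) hδ)
  have e3 := hlt.eventually (ev_rpow κ θ 4 hκθ)
  have e4 := hlt.eventually (ev_rpow θ 1 1100 hθ1)
  have hexp : Real.exp (-α) < 1 := by
    rw [Real.exp_lt_one_iff]
    linarith
  have hll : Tendsto (fun X : ℝ => Real.log (Real.log X)) atTop atTop := hlt.comp hlt
  have e5 := hll.eventually_ge_atTop (max 1 (max (24 / α) (max ((Real.log 2 / κ) / (θ / κ * (1 - Real.exp (-α))))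
    ((4 * C / α + Real.log 2) / κ))))
  filter_upwards [e1, e2, e3, e4, e5, hlt.eventually_ge_atTop (1 : ℝ)] with X g1 g2 g3 g4 g5 g6
  intro ps S Q hps hS hQ1 hQ
  rw [← hα]
  set L := Real.log X with hL
  set l := Real.log L with hl
  have hL0 : 0 < L := by linarith
  have g8 : 8 ≤ L ^ κ := (le_max_left _ _).trans g1
  have g8' : 8 / α ≤ L ^ κ := (le_max_right _ _).trans g1
  have hl1 : 1 ≤ l := (le_max_left _ _).trans g5
  have hl2 : 24 / α ≤ l := (le_max_left _ _).trans ((le_max_right _ _).trans g5)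
  have hl3 : (Real.log 2 / κ) / (θ / κ * (1 - Real.exp (-α))) ≤ l :=
    (le_max_left _ _).trans ((le_max_right _ _).trans ((le_max_right _ _).trans g5))
  have hl4 : (4 * C / α + Real.log 2) / κ ≤ l :=
    (le_max_right _ _).trans ((le_max_right _ _).trans ((le_max_right _ _).trans g5))
  obtain ⟨w, hw⟩ : ∃ w : ℕ, w = LL κ X := ⟨_, rfl⟩
  obtain ⟨z, hz⟩ : ∃ z : ℕ, z = LL θ X := ⟨_, rfl⟩
  rw [← hw, ← hz]
  have hLκ : 0 < L ^ κ := by positivity
  have hLθ : 0 < L ^ θ := by positivity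
  have hw1 : (w : ℝ) ≤ L ^ κ := by rw [hw]; exact Nat.floor_le hLκ.le
  have hw2 : L ^ κ / 2 ≤ w := by
    have := (Nat.lt_floor_add_one (L ^ κ)).le
    rw [hw]; unfold LL
    linarith
  have hz1 : (z : ℝ) ≤ L ^ θ := by rw [hz]; exact Nat.floor_le hLθ.le
  have hz2 : L ^ θ / 2 ≤ z := by
    have := (Nat.lt_floor_add_one (L ^ θ)).le
    rw [hz]; unfold LL
    linarith
  have hw4 : (4 : ℝ) ≤ w := by linarith
  have hw4' : 4 ≤ w := by exact_mod_cast hw4
  have hw0 : (0 : ℝ) < w := by linarith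
  have hwz : w ≤ z := by
    have : (w : ℝ) ≤ z := by linarith
    exact_mod_cast this
  have hzy : z ≤ yy X := by
    unfold yy
    apply Nat.le_floor
    rw [Real.rpow_one] at g4
    have : L / 1100 ≤ L / 1000 := by
      apply div_le_div_of_nonneg_left hL0.le (by norm_num) (by norm_num)
    linarith
  have hsub : (Ioc w z).filter Nat.Prime ⊆ ((DD X w z S ps Q ∪ S) ∪ ({ps} : Finset ℕ).filter (fun p => w < p)) ∪
      Q.primeFactors.filter (fun p => w < p) := by
    intro p hp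
    obtain ⟨h1, h2⟩ := mem_filter.1 hp
    rw [mem_Ioc] at h1
    by_cases h3 : p ∣ Q
    · exact mem_union_right _ (mem_filter.2 ⟨Nat.mem_primeFactors.2 ⟨h2, h3, by omega⟩, h1.1⟩)
    · apply mem_union_left
      by_cases h4 : p = ps
      · exact mem_union_right _ (mem_filter.2 ⟨mem_singleton.2 h4, h1.1⟩)
      · apply mem_union_left
        by_cases h5 : p ∈ S
        · exact mem_union_right _ h5
        · apply mem_union_left
          unfold DD
          rw [mem_filter]
          exact ⟨(mem_PZ hzy).2 ⟨h1.2, h2, h5, h4⟩, h1.1, h3⟩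
  have hf : ∀ n : ℕ, (0 : ℝ) ≤ 1 / (n : ℝ) := fun n => by positivity
  have hsum : ∑ p ∈ (Ioc w z).filter Nat.Prime, (1 : ℝ) / p ≤ ∑ p ∈ DD X w z S ps Q, (1 : ℝ) / p +
      ∑ p ∈ S, (1 : ℝ) / p + ∑ p ∈ ({ps} : Finset ℕ).filter (fun p => w < p), (1 : ℝ) / p +
      ∑ p ∈ Q.primeFactors.filter (fun p => w < p), (1 : ℝ) / p := by
    refine (Finset.sum_le_sum_of_subset_of_nonneg hsub fun n _ _ => hf n).trans ?_
    have h1 := sum_union_le ((DD X w z S ps Q ∪ S) ∪ ({ps} : Finset ℕ).filter (fun p => w < p))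
      (Q.primeFactors.filter (fun p => w < p)) (fun p => (1 : ℝ) / p) hf
    have h2 := sum_union_le (DD X w z S ps Q ∪ S) (({ps} : Finset ℕ).filter (fun p => w < p))
      (fun p => (1 : ℝ) / p) hf
    have h3 := sum_union_le (DD X w z S ps Q) S (fun p => (1 : ℝ) / p) hf
    linarith
  have hS1 : ∑ p ∈ S, (1 : ℝ) / p ≤ α / 4 := by
    refine hS.2.trans ?_
    change 6 / l ^ 2 ≤ α / 4
    rw [div_le_iff₀ hα0] at hl2
    rw [div_le_iff₀ (by positivity)]
    nlinarith
  have hp1 : ∑ p ∈ ({ps} : Finset ℕ).filter (fun p => w < p), (1 : ℝ) / p ≤ α / 4 := by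
    have h1 : ∑ p ∈ ({ps} : Finset ℕ).filter (fun p => w < p), (1 : ℝ) / p ≤ 1 / w := by
      rw [Finset.filter_singleton]
      split_ifs with h2
      · rw [Finset.sum_singleton]
        exact one_div_le_one_div_of_le hw0 (by exact_mod_cast h2.le)
      · rw [Finset.sum_empty]; positivity
    refine h1.trans ?_
    rw [div_le_iff₀ hw0]
    rw [div_le_iff₀ hα0] at g8'
    nlinarith
  have hQ2 : ∑ p ∈ Q.primeFactors.filter (fun p => w < p), (1 : ℝ) / p ≤ α / 4 := by
    refine (Q_factors Q w hQ1 (by omega)).trans ?_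
    have hQ0 : (0 : ℝ) < Q := by exact_mod_cast hQ1
    have h1 : Real.log Q ≤ L ^ δ := by
      rw [Real.log_le_iff_le_exp hQ0]
      exact hQ
    rw [div_le_iff₀ hw0]
    rw [div_mul_eq_mul_div, div_le_iff₀ hα0] at g2
    nlinarith
  have hM := hC w z (by omega) hwz
  rw [abs_le] at hM
  have hlogw : Real.log w ≤ κ * l := by
    have := Real.log_le_log hw0 hw1
    rwa [Real.log_rpow hL0] at this
  have hlogw2 : κ * l - Real.log 2 ≤ Real.log w := by
    have := Real.log_le_log (by positivity) hw2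
    rwa [Real.log_div hLκ.ne' (by norm_num), Real.log_rpow hL0] at this
  have hlogz : θ * l - Real.log 2 ≤ Real.log z := by
    have := Real.log_le_log (by positivity) hz2
    rwa [Real.log_div hLθ.ne' (by norm_num), Real.log_rpow hL0] at this
  have hlogw0 : 0 < Real.log w := Real.log_pos (by linarith)
  have hκl : 0 < κ * l := by positivity
  have hCw : C / Real.log w ≤ α / 4 := by
    rw [div_le_iff₀ hlogw0]
    rw [div_le_iff₀ hκ] at hl4
    have h1 : 4 * C / α ≤ Real.log w := by linarith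
    rw [div_le_iff₀ hα0] at h1
    linarith
  have hratio : θ / κ * Real.exp (-α) ≤ Real.log z / Real.log w := by
    have hp : 0 < θ / κ * (1 - Real.exp (-α)) := mul_pos (by linarith) (by linarith)
    rw [div_le_iff₀ hp] at hl3
    have h1 : (θ / κ * Real.exp (-α)) * (κ * l) ≤ θ * l - Real.log 2 := by
      have h2 : Real.log 2 / κ * κ ≤ l * (θ / κ * (1 - Real.exp (-α))) * κ := mul_le_mul_of_nonneg_right hl3 hκ.le
      rw [div_mul_cancel₀ _ hκ.ne'] at h2
      have h3 : l * (θ / κ * (1 - Real.exp (-α))) * κ = l * θ - l * θ * Real.exp (-α) := by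
        field_simp
      have h4 : (θ / κ * Real.exp (-α)) * (κ * l) = l * θ * Real.exp (-α) := by
        field_simp
      rw [h3] at h2
      rw [h4]
      linarith
    rw [le_div_iff₀ hlogw0]
    have h5 : 0 ≤ θ / κ * Real.exp (-α) := by positivity
    calc θ / κ * Real.exp (-α) * Real.log w ≤ θ / κ * Real.exp (-α) * (κ * l) := by gcongr
      _ ≤ Real.log z := h1.trans hlogz
  have hlog : 3 * α ≤ Real.log (Real.log z / Real.log w) := by
    have h1 : 0 < θ / κ * Real.exp (-α) := by positivity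
    have h2 := Real.log_le_log h1 hratio
    rw [Real.log_mul (by positivity) (by positivity), Real.log_exp] at h2
    linarith
  linarith [hM.1]

end Pool.Agent.H560.NP
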