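import Pool.Agent.H560.NP.R3

/-!
The scales.
-/

set_option autoImplicit false

open Finset Filter Topology
open Pool.Agent.H378R2 Pool.Agent.H510R2.Maier Pool.Agent.T2H52.MG
open Pool.Agent.R529.LD (ev_rpow)

namespace Pool.Agent.H560.NP

theorem scale_one (k0 k : ℕ) (κ θ u : ℝ) (hκ : 0 < κ) (hκθ : κ < θ) (h1 : θ * k < u) (h2 : u < κ * (k + 1))
    (h3 : (k0 : ℝ) < u) (ε : ℝ) (hε : 0 < ε) : ∀ᶠ X : ℝ in atTop, 1 ≤ LL θ X ∧ 1 ≤ LL u X ∧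
      (LL θ X : ℝ) ^ k ≤ ε * LL u X ∧
      ∀ Y : ℕ, (Y : ℝ) ≤ (Real.log X) ^ k0 → LL u X + Y < (LL κ X + 1) ^ (k + 1) := by
  have hθ : 0 < θ := by linarith
  have hu : 0 < u := lt_of_le_of_lt (Nat.cast_nonneg k0) h3
  have hlt := Real.tendsto_log_atTop
  filter_upwards [hlt.eventually (ev_rpow u (κ * (k + 1)) 4 h2), hlt.eventually (ev_rpow (θ * k) u (2 / ε) h1),
    hlt.eventually_ge_atTop (1 : ℝ), hlt.eventually ((tendsto_rpow_atTop hu).eventually_ge_atTop 2)] with X g1 g2 g3 g4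
  set L := Real.log X with hL
  have hL0 : 0 < L := by linarith
  have hLu : 0 < L ^ u := by positivity
  have hU1 : (LL u X : ℝ) ≤ L ^ u := Nat.floor_le hLu.le
  have hU2 : L ^ u / 2 ≤ LL u X := by
    have := (Nat.lt_floor_add_one (L ^ u)).le
    unfold LL
    linarith
  refine ⟨?_, ?_, ?_, ?_⟩
  · unfold LL
    apply Nat.le_floor
    rw [Nat.cast_one]
    exact Real.one_le_rpow g3 hθ.le
  · unfold LL
    apply Nat.le_floor
    rw [Nat.cast_one]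
    linarith
  · have hz : (LL θ X : ℝ) ≤ L ^ θ := Nat.floor_le (by positivity)
    have h5 : (LL θ X : ℝ) ^ k ≤ L ^ (θ * k) := by
      calc (LL θ X : ℝ) ^ k ≤ (L ^ θ) ^ k := pow_le_pow_left₀ (Nat.cast_nonneg _) hz k
        _ = L ^ (θ * k) := by rw [← Real.rpow_natCast, ← Real.rpow_mul hL0.le]
    rw [div_mul_eq_mul_div, div_le_iff₀ hε] at g2
    nlinarith
  · intro Y hY
    have h5 : (Y : ℝ) ≤ L ^ u := by
      refine hY.trans ?_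
      rw [← Real.rpow_natCast]
      exact Real.rpow_le_rpow_of_exponent_le g3 h3.le
    have h6 : L ^ κ ≤ ((LL κ X + 1 : ℕ) : ℝ) := by
      push_cast
      exact (Nat.lt_floor_add_one _).le
    have h7 : L ^ (κ * (k + 1)) ≤ ((LL κ X + 1 : ℕ) : ℝ) ^ (k + 1) := by
      calc L ^ (κ * (k + 1)) = (L ^ κ) ^ (k + 1) := by
            rw [Real.rpow_mul hL0.le, ← Real.rpow_natCast]
            push_cast
            rfl
        _ ≤ _ := pow_le_pow_left₀ (by positivity) h6 _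
    have h8 : ((LL u X + Y : ℕ) : ℝ) < (((LL κ X + 1) ^ (k + 1) : ℕ) : ℝ) := by
      push_cast at h7 ⊢
      linarith
    exact_mod_cast h8

/-- the scales -/
theorem scales_ex (k0 : ℕ) (κ : ℝ) (hκ : 0 < κ) (hκ1 : κ < 1) : ∃ (θ u1 u2 : ℝ) (k : ℕ), κ < θ ∧ θ < 1 ∧
    ∀ ε : ℝ, 0 < ε → ∀ᶠ X : ℝ in atTop, 1 ≤ LL θ X ∧ 1 ≤ LL u1 X ∧ 1 ≤ LL u2 X ∧
      (LL θ X : ℝ) ^ (2 * k + 1) ≤ ε * LL u1 X ∧ (LL θ X : ℝ) ^ (2 * k + 2) ≤ ε * LL u2 X ∧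
      ∀ Y : ℕ, (Y : ℝ) ≤ (Real.log X) ^ k0 → LL u1 X + Y < (LL κ X + 1) ^ (2 * k + 2) ∧
        LL u2 X + Y < (LL κ X + 1) ^ (2 * k + 3) := by
  obtain ⟨k, hk⟩ := exists_nat_ge ((k0 + 2) / κ)
  rw [div_le_iff₀ hκ] at hk
  obtain ⟨η, hη⟩ : ∃ η : ℝ, η = κ * (1 - κ) / (2 * (2 * k + 3)) := ⟨_, rfl⟩
  have hk0 : (0 : ℝ) ≤ k := Nat.cast_nonneg k
  have hk00 : (0 : ℝ) ≤ k0 := Nat.cast_nonneg k0
  have hη0 : 0 < η := by
    rw [hη]
    have : 0 < 1 - κ := by linarith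
    positivity
  have hη1 : η * (2 * (2 * k + 3)) = κ * (1 - κ) := by
    rw [hη]
    field_simp
  have hη2 : η * (2 * k + 2) < κ := by nlinarith
  have hη3 : η < 1 - κ := by nlinarith
  have hη4 : η * (2 * k + 1) < κ := by nlinarith
  refine ⟨κ + η, ((κ + η) * (2 * k + 1) + κ * (2 * k + 2)) / 2, ((κ + η) * (2 * k + 2) + κ * (2 * k + 3)) / 2, k,
    by linarith, by linarith, ?_⟩
  intro ε hε
  have s1 := scale_one k0 (2 * k + 1) κ (κ + η) (((κ + η) * (2 * k + 1) + κ * (2 * k + 2)) / 2) hκ (by linarith)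
    (by push_cast; nlinarith) (by push_cast; nlinarith) (by nlinarith) ε hε
  have s2 := scale_one k0 (2 * k + 2) κ (κ + η) (((κ + η) * (2 * k + 2) + κ * (2 * k + 3)) / 2) hκ (by linarith)
    (by push_cast; nlinarith) (by push_cast; nlinarith) (by nlinarith) ε hε
  filter_upwards [s1, s2] with X g1 g2
  exact ⟨g1.1, g1.2.1, g2.2.1, g1.2.2.1, g2.2.2.1, fun Y hY => ⟨g1.2.2.2 Y hY, g2.2.2.2 Y hY⟩⟩

end Pool.Agent.H560.NP
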