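import Pool.Agent.H560.NP.R1
import Pool.Agent.H560.NP.R3

/-!
The choice of the classes.
-/

set_option autoImplicit false

open Finset Filter Topology
open Pool.Agent.H378R2 Pool.Agent.H510R2.Maier Pool.Agent.T2H52.MG

namespace Pool.Agent.H560.NP

theorem cop_prod (A : Finset ℕ) (hA : ∀ p ∈ A, p.Prime) (x : ℕ) : x.Coprime (∏ p ∈ A, p) ↔ ∀ p ∈ A, ¬ p ∣ x := by
  rw [Nat.coprime_prod_right_iff]
  constructor
  · intro h p hp
    exact (Nat.Prime.coprime_iff_not_dvd (hA p hp)).1 (h p hp).symm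
  · intro h p hp
    exact ((Nat.Prime.coprime_iff_not_dvd (hA p hp)).2 (h p hp)).symm

theorem dvd_shift {p n r h : ℕ} (hn : n ≡ r [MOD p]) : p ∣ n + h ↔ p ∣ r + h :=
  Nat.ModEq.dvd_iff (Nat.ModEq.add_right h hn) dvd_rfl

/-- a class with prescribed residues modulo two sets of primes -/
theorem lift_ex (A D : Finset ℕ) (hA : ∀ p ∈ A, p.Prime) (hD : ∀ p ∈ D, p.Prime) (hAD : Disjoint A D) (r b : ℕ) :
    ∃ c : ℕ, c ≡ r [MOD ∏ p ∈ A, p] ∧ ∀ h : ℕ, (c + h).Coprime ((∏ p ∈ A, p) * ∏ p ∈ D, p) ↔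
      ((r + h).Coprime (∏ p ∈ A, p) ∧ ∀ p ∈ D, ¬ p ∣ b + h) := by
  have hco : (∏ p ∈ A, p).Coprime (∏ p ∈ D, p) := prod_coprime_of_disjoint hA hD hAD
  obtain ⟨c, hc1, hc2⟩ := Nat.chineseRemainder hco r b
  refine ⟨c, hc1, fun h => ?_⟩
  rw [Nat.coprime_mul_iff_right, cop_prod A hA, cop_prod A hA, cop_prod D hD]
  constructor
  · rintro ⟨h1, h2⟩
    refine ⟨fun p hp => ?_, fun p hp => ?_⟩
    · rw [← dvd_shift (hc1.of_dvd (Finset.dvd_prod_of_mem _ hp))]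
      exact h1 p hp
    · rw [← dvd_shift (hc2.of_dvd (Finset.dvd_prod_of_mem _ hp))]
      exact h2 p hp
  · rintro ⟨h1, h2⟩
    refine ⟨fun p hp => ?_, fun p hp => ?_⟩
    · rw [dvd_shift (hc1.of_dvd (Finset.dvd_prod_of_mem _ hp))]
      exact h1 p hp
    · rw [dvd_shift (hc2.of_dvd (Finset.dvd_prod_of_mem _ hp))]
      exact h2 p hp

/-- the average over the integers up to `U` -/
theorem avg_b (D : Finset ℕ) (hD : ∀ p ∈ D, p.Prime) (w z k U Y : ℕ) (hw : ∀ p ∈ D, w < p) (hz : ∀ p ∈ D, p ≤ z)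
    (hz1 : 1 ≤ z) (hU1 : 1 ≤ U) (hU : U + Y < (w + 1) ^ (k + 1)) (ε : ℝ) (hε : (z : ℝ) ^ k ≤ ε * U)
    (g : ℕ → ℝ) (hg : ∀ h, 0 ≤ g h) :
    (∃ b : ℕ, ∑ h ∈ (Icc 1 Y).filter (fun h => ∀ p ∈ D, ¬ p ∣ b + h), g h ≤ (AJ D k + ε) * ∑ h ∈ Icc 1 Y, g h) ∧
    (∃ b : ℕ, (AJ D k - ε) * ∑ h ∈ Icc 1 Y, g h ≤ ∑ h ∈ (Icc 1 Y).filter (fun h => ∀ p ∈ D, ¬ p ∣ b + h), g h) := by
  classical
  have h1 : ∑ b ∈ Icc 1 U, ∑ h ∈ (Icc 1 Y).filter (fun h => ∀ p ∈ D, ¬ p ∣ b + h), g h =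
      ∑ h ∈ Icc 1 Y, g h * (((Icc 1 U).filter (fun b => ∀ p ∈ D, ¬ p ∣ b + h)).card : ℝ) := by
    simp_rw [Finset.sum_filter]
    rw [Finset.sum_comm]
    apply Finset.sum_congr rfl
    intro h _
    rw [Finset.card_filter]
    push_cast
    rw [Finset.mul_sum]
    apply Finset.sum_congr rfl
    intro b _
    split_ifs <;> simp
  have h2 : ∀ h ∈ Icc 1 Y, |(((Icc 1 U).filter (fun b => ∀ p ∈ D, ¬ p ∣ b + h)).card : ℝ) - U * AJ D k| ≤ ε * U := by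
    intro h hh
    rw [mem_Icc] at hh
    exact (sift_count D hD w z k U h hw hz hz1 (by omega)).trans hε
  have hU0 : (0 : ℝ) < U := by exact_mod_cast hU1
  have hne : (Icc 1 U).Nonempty := ⟨1, mem_Icc.2 ⟨le_rfl, hU1⟩⟩
  constructor
  · have h3 : ∑ b ∈ Icc 1 U, ∑ h ∈ (Icc 1 Y).filter (fun h => ∀ p ∈ D, ¬ p ∣ b + h), g h ≤
        ∑ b ∈ Icc 1 U, (AJ D k + ε) * ∑ h ∈ Icc 1 Y, g h := by
      rw [h1, Finset.sum_const, Nat.card_Icc, nsmul_eq_mul, Finset.mul_sum, Finset.mul_sum]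
      apply Finset.sum_le_sum
      intro h hh
      have h4 := (abs_le.1 (h2 h hh)).2
      have h5 : (((Icc 1 U).filter (fun b => ∀ p ∈ D, ¬ p ∣ b + h)).card : ℝ) ≤ U * (AJ D k + ε) := by linarith
      have h6 := mul_le_mul_of_nonneg_left h5 (hg h)
      simp only [Nat.add_sub_cancel]
      linarith
    obtain ⟨b, _, hb⟩ := Finset.exists_le_of_sum_le hne h3
    exact ⟨b, hb⟩
  · have h3 : ∑ b ∈ Icc 1 U, (AJ D k - ε) * ∑ h ∈ Icc 1 Y, g h ≤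
        ∑ b ∈ Icc 1 U, ∑ h ∈ (Icc 1 Y).filter (fun h => ∀ p ∈ D, ¬ p ∣ b + h), g h := by
      rw [h1, Finset.sum_const, Nat.card_Icc, nsmul_eq_mul, Finset.mul_sum, Finset.mul_sum]
      apply Finset.sum_le_sum
      intro h hh
      have h4 := (abs_le.1 (h2 h hh)).1
      have h5 : U * (AJ D k - ε) ≤ (((Icc 1 U).filter (fun b => ∀ p ∈ D, ¬ p ∣ b + h)).card : ℝ) := by linarith
      have h6 := mul_le_mul_of_nonneg_left h5 (hg h)
      simp only [Nat.add_sub_cancel]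
      linarith
    obtain ⟨b, _, hb⟩ := Finset.exists_le_of_sum_le hne h3
    exact ⟨b, hb⟩

/-- the number of the units in a period -/
theorem unit_count (m h : ℕ) : ((range m).filter (fun r => (r + h).Coprime m)).card = m.totient := by
  rw [← Nat.filter_coprime_Ico_eq_totient m h]
  apply Finset.card_bij (fun r _ => r + h)
  · intro r hr
    rw [mem_filter, mem_range] at hr
    rw [mem_filter, mem_Ico]
    exact ⟨by omega, hr.2.symm⟩
  · intro a _ b _ hab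
    omega
  · intro b hb
    rw [mem_filter, mem_Ico] at hb
    refine ⟨b - h, ?_, by omega⟩
    rw [mem_filter, mem_range, show b - h + h = b by omega]
    exact ⟨by omega, hb.2.symm⟩

/-- a class in which at least the average number of the weights survive, in a given class modulo `q` -/
theorem class_r (A : Finset ℕ) (hA : ∀ p ∈ A, p.Prime) (q a Y : ℕ) (hq : 0 < q) (hqA : q ∣ ∏ p ∈ A, p)
    (f : ℕ → ℝ) (hf : ∀ h, 0 ≤ f h) (hfq : ∀ h, f h ≠ 0 → (a + h).Coprime q) :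
    ∃ r : ℕ, r ≡ a [MOD q] ∧ BE A * ∑ h ∈ Icc 1 Y, f h ≤ SF (∏ p ∈ A, p) r Y f := by
  classical
  set A' := A.filter (fun p => ¬ p ∣ q) with hA'
  have hA'p : ∀ p ∈ A', p.Prime := fun p hp => hA p (mem_filter.1 hp).1
  set m := ∏ p ∈ A', p with hm
  have hm0 : 0 < m := Finset.prod_pos fun p hp => (hA'p p hp).pos
  have hmr : (0 : ℝ) < m := by exact_mod_cast hm0
  -- the average
  have h1 : ∑ r ∈ range m, ∑ h ∈ (Icc 1 Y).filter (fun h => (r + h).Coprime m), f h =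
      m.totient * ∑ h ∈ Icc 1 Y, f h := by
    simp_rw [Finset.sum_filter]
    rw [Finset.sum_comm, Finset.mul_sum]
    apply Finset.sum_congr rfl
    intro h _
    rw [← Finset.sum_filter, Finset.sum_const, unit_count, nsmul_eq_mul]
  have hne : (range m).Nonempty := ⟨0, mem_range.2 hm0⟩
  have h2 : ∑ r ∈ range m, ((m.totient : ℝ) / m * ∑ h ∈ Icc 1 Y, f h) ≤
      ∑ r ∈ range m, ∑ h ∈ (Icc 1 Y).filter (fun h => (r + h).Coprime m), f h := by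
    rw [h1, Finset.sum_const, card_range, nsmul_eq_mul]
    apply le_of_eq
    field_simp
  obtain ⟨r0, _, hr0⟩ := Finset.exists_le_of_sum_le hne h2
  have hco : m.Coprime q := by
    rw [hm]
    apply Nat.Coprime.prod_left
    intro p hp
    exact (Nat.Prime.coprime_iff_not_dvd (hA'p p hp)).2 (mem_filter.1 hp).2
  obtain ⟨r, hr1, hr2⟩ := Nat.chineseRemainder hco r0 a
  refine ⟨r, hr2, ?_⟩
  have hBE : BE A ≤ (m.totient : ℝ) / m := by
    have h3 : (m.totient : ℝ) = m * BE A' := totient_prod A' hA'p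
    rw [h3, mul_div_assoc, mul_comm, div_mul_cancel₀ _ hmr.ne']
    unfold BE
    have h4 : A' ⊆ A := Finset.filter_subset _ _
    rw [← Finset.prod_sdiff h4]
    have h5 : ∏ p ∈ A \ A', (1 - 1 / (p : ℝ)) ≤ 1 := by
      apply Finset.prod_le_one
      · intro p hp
        have h6 : (2 : ℝ) ≤ p := by exact_mod_cast (hA p (mem_sdiff.1 hp).1).two_le
        have h7 : 1 / (p : ℝ) ≤ 1 := by rw [div_le_one (by linarith)]; linarith
        linarith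
      · intro p hp
        have : (0 : ℝ) ≤ 1 / (p : ℝ) := by positivity
        linarith
    have h8 : 0 ≤ ∏ p ∈ A', (1 - 1 / (p : ℝ)) := by
      apply Finset.prod_nonneg
      intro p hp
      have h6 : (2 : ℝ) ≤ p := by exact_mod_cast (hA'p p hp).two_le
      have h7 : 1 / (p : ℝ) ≤ 1 := by rw [div_le_one (by linarith)]; linarith
      linarith
    calc _ ≤ 1 * ∏ p ∈ A', (1 - 1 / (p : ℝ)) := mul_le_mul_of_nonneg_right h5 h8
      _ = _ := one_mul _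
  have hsum0 : 0 ≤ ∑ h ∈ Icc 1 Y, f h := Finset.sum_nonneg fun h _ => hf h
  refine (mul_le_mul_of_nonneg_right hBE hsum0).trans (hr0.trans ?_)
  unfold SF
  rw [Finset.sum_filter, Finset.sum_filter]
  apply Finset.sum_le_sum
  intro h _
  by_cases hfh : f h = 0
  · simp [hfh]
  · have hc := hfq h hfh
    split_ifs with h3 h4 h4
    · exact le_rfl
    · exfalso
      apply h4
      rw [cop_prod A hA]
      intro p hp hd
      by_cases h5 : p ∣ q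
      · rw [dvd_shift (hr2.of_dvd h5)] at hd
        exact Nat.not_coprime_of_dvd_of_dvd (hA p hp).one_lt hd h5 hc
      · have h6 : p ∈ A' := mem_filter.2 ⟨hp, h5⟩
        rw [dvd_shift (hr1.of_dvd (Finset.dvd_prod_of_mem _ h6))] at hd
        exact (cop_prod A' hA'p _).1 h3 p h6 hd
    · exact hf h
    · exact le_rfl

theorem SF_mono_class (W r Y : ℕ) (f : ℕ → ℝ) (hf : ∀ h, 0 ≤ f h) : SF W r Y f ≤ ∑ h ∈ Icc 1 Y, f h :=
  Finset.sum_le_sum_of_subset_of_nonneg (Finset.filter_subset _ _) fun h _ _ => hf h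

/-- two classes which agree modulo the primes of `A`, with different numbers of survivors -/
theorem two_classes (A D : Finset ℕ) (hA : ∀ p ∈ A, p.Prime) (hD : ∀ p ∈ D, p.Prime) (hAD : Disjoint A D)
    (w z k U1 U2 Y : ℕ) (hw : ∀ p ∈ D, w < p) (hz : ∀ p ∈ D, p ≤ z) (hz1 : 1 ≤ z) (hU1 : 1 ≤ U1) (hU2 : 1 ≤ U2)
    (hUY1 : U1 + Y < (w + 1) ^ (2 * k + 2)) (hUY2 : U2 + Y < (w + 1) ^ (2 * k + 3))
    (ε : ℝ) (hε1 : (z : ℝ) ^ (2 * k + 1) ≤ ε * U1) (hε2 : (z : ℝ) ^ (2 * k + 2) ≤ ε * U2)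
    (f : ℕ → ℝ) (hf : ∀ h, 0 ≤ f h) (r : ℕ) :
    ∃ c1 c2 : ℕ, c1 ≡ r [MOD ∏ p ∈ A, p] ∧ c2 ≡ r [MOD ∏ p ∈ A, p] ∧
      SF ((∏ p ∈ A, p) * ∏ p ∈ D, p) c1 Y f ≤ SF (∏ p ∈ A, p) r Y f ∧
      SF ((∏ p ∈ A, p) * ∏ p ∈ D, p) c2 Y f ≤ SF (∏ p ∈ A, p) r Y f ∧
      (EJ D (2 * k + 2) - 2 * ε) * SF (∏ p ∈ A, p) r Y f ≤
        SF ((∏ p ∈ A, p) * ∏ p ∈ D, p) c2 Y f - SF ((∏ p ∈ A, p) * ∏ p ∈ D, p) c1 Y f := by
  classical
  set WA := ∏ p ∈ A, p with hWA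
  set g : ℕ → ℝ := fun h => if (r + h).Coprime WA then f h else 0 with hg
  have hg0 : ∀ h, 0 ≤ g h := by
    intro h
    rw [hg]
    simp only
    split_ifs
    · exact hf h
    · exact le_rfl
  have hgs : ∑ h ∈ Icc 1 Y, g h = SF WA r Y f := by
    unfold SF
    rw [Finset.sum_filter]
  obtain ⟨⟨b1, hb1⟩, -⟩ := avg_b D hD w z (2 * k + 1) U1 Y hw hz hz1 hU1 hUY1 ε hε1 g hg0
  obtain ⟨-, ⟨b2, hb2⟩⟩ := avg_b D hD w z (2 * k + 2) U2 Y hw hz hz1 hU2 hUY2 ε hε2 g hg0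
  rw [hgs] at hb1 hb2
  obtain ⟨c1, hc1, hc1'⟩ := lift_ex A D hA hD hAD r b1
  obtain ⟨c2, hc2, hc2'⟩ := lift_ex A D hA hD hAD r b2
  have key : ∀ (c b : ℕ), (∀ h : ℕ, (c + h).Coprime (WA * ∏ p ∈ D, p) ↔
      ((r + h).Coprime WA ∧ ∀ p ∈ D, ¬ p ∣ b + h)) →
      SF (WA * ∏ p ∈ D, p) c Y f = ∑ h ∈ (Icc 1 Y).filter (fun h => ∀ p ∈ D, ¬ p ∣ b + h), g h := by
    intro c b hcb
    unfold SF
    rw [Finset.sum_filter, Finset.sum_filter]
    apply Finset.sum_congr rfl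
    intro h _
    by_cases h1 : (r + h).Coprime WA
    · by_cases h2 : ∀ p ∈ D, ¬ p ∣ b + h
      · rw [if_pos ((hcb h).2 ⟨h1, h2⟩), if_pos h2]
        simp only [hg]
        rw [if_pos h1]
      · rw [if_neg (fun h3 => h2 ((hcb h).1 h3).2), if_neg h2]
    · rw [if_neg (fun h3 => h1 ((hcb h).1 h3).1)]
      simp only [hg]
      rw [if_neg h1]
      simp
  have hle : ∀ b : ℕ, ∑ h ∈ (Icc 1 Y).filter (fun h => ∀ p ∈ D, ¬ p ∣ b + h), g h ≤ SF WA r Y f := by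
    intro b
    rw [← hgs]
    exact Finset.sum_le_sum_of_subset_of_nonneg (Finset.filter_subset _ _) fun h _ _ => hg0 h
  refine ⟨c1, c2, hc1, hc2, ?_, ?_, ?_⟩
  · rw [key c1 b1 hc1']; exact hle b1
  · rw [key c2 b2 hc2']; exact hle b2
  · rw [key c1 b1 hc1', key c2 b2 hc2']
    have hAJ : AJ D (2 * k + 2) = AJ D (2 * k + 1) + EJ D (2 * k + 2) := by
      rw [AJ_succ D (2 * k + 1), show (-1 : ℝ) ^ (2 * k + 1 + 1) = 1 by
        rw [show 2 * k + 1 + 1 = 2 * (k + 1) by ring, pow_mul]; norm_num, one_mul]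
    rw [hAJ] at hb2
    linarith

end Pool.Agent.H560.NP
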