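import Pool.Agent.H560.NP.R1

/-!
Sums of periodic functions over the rows.
-/

set_option autoImplicit false

open Finset Filter Topology
open Pool.Agent.H378R2 Pool.Agent.H510R2.Maier Pool.Agent.T2H52.MG

namespace Pool.Agent.H560.NP

theorem modEq_lcm {W Q n x : ℕ} : n ≡ x [MOD Nat.lcm W Q] ↔ (n ≡ x [MOD W] ∧ n ≡ x [MOD Q]) := by
  constructor
  · intro h
    exact ⟨h.of_dvd (Nat.dvd_lcm_left _ _), h.of_dvd (Nat.dvd_lcm_right _ _)⟩
  · rintro ⟨h1, h2⟩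
    rw [Nat.modEq_iff_dvd] at h1 h2 ⊢
    have h3 : ((Nat.lcm W Q : ℕ) : ℤ) ∣ (x : ℤ) - n := by
      rw [Int.natCast_dvd] at h1 h2 ⊢
      exact Nat.lcm_dvd h1 h2
    exact h3

theorem nu_class (X : ℝ) (W Q c e : ℕ) (hQ : 0 < Q) (n : ℕ) (x : ℕ) (hx1 : x ≡ c [MOD W]) (hx2 : x ≡ e [MOD Q])
    (he : e < Q) : (if n % Q = e then nu X W c n else 0) = nu X (Nat.lcm W Q) x n := by
  have hiff : n ≡ x [MOD Nat.lcm W Q] ↔ (n ≡ c [MOD W] ∧ n % Q = e) := by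
    rw [modEq_lcm]
    constructor
    · rintro ⟨h1, h2⟩
      refine ⟨h1.trans hx1, ?_⟩
      have h3 := h2.trans hx2
      unfold Nat.ModEq at h3
      rw [h3, Nat.mod_eq_of_lt he]
    · rintro ⟨h1, h2⟩
      refine ⟨h1.trans hx1.symm, ?_⟩
      have h3 : n ≡ e [MOD Q] := by
        unfold Nat.ModEq
        rw [h2, Nat.mod_eq_of_lt he]
      exact h3.trans hx2.symm
  unfold nu
  by_cases h1 : n % Q = e
  · by_cases h2 : n ≡ c [MOD W]
    · rw [if_pos h1, if_pos h2, if_pos (hiff.2 ⟨h2, h1⟩)]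
    · rw [if_pos h1, if_neg h2, if_neg (fun h3 => h2 (hiff.1 h3).1)]
  · rw [if_neg h1, if_neg (fun h3 => h1 (hiff.1 h3).2)]

/-- sums of a periodic function over the rows -/
theorem per_sum (X : ℝ) (hX : 4 ≤ X) (W Q c : ℕ) (hW : 0 < W) (hQ : 0 < Q) (hlcm : ((Nat.lcm W Q : ℕ) : ℝ) ≤ X)
    (G : ℕ → ℝ) (hG : ∀ n, G (n + Q) = G n) (K : ℝ) (h0 : ∀ n, 0 ≤ G n) (hK : ∀ n, G n ≤ K) :
    |∑ n ∈ Icc 1 ⌊3 * X⌋₊, nu X W c n * G n -
      ∑ e ∈ (range Q).filter (fun e => e ≡ c [MOD Nat.gcd W Q]), G e * (MPhi X * (1 / ((Nat.lcm W Q : ℕ) : ℝ)))| ≤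
      5 * (Q * K) := by
  classical
  have hper : Function.Periodic G Q := hG
  have h1 : ∑ n ∈ Icc 1 ⌊3 * X⌋₊, nu X W c n * G n =
      ∑ e ∈ range Q, G e * ∑ n ∈ Icc 1 ⌊3 * X⌋₊, (if n % Q = e then nu X W c n else 0) := by
    simp_rw [Finset.mul_sum]
    rw [Finset.sum_comm]
    apply Finset.sum_congr rfl
    intro n _
    rw [Finset.sum_eq_single (n % Q)]
    · rw [if_pos rfl, hper.map_mod_nat n]
      ring
    · intro e _ he
      rw [if_neg (fun h => he h.symm), mul_zero]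
    · intro h
      exact absurd (mem_range.2 (Nat.mod_lt n hQ)) h
  rw [h1, Finset.sum_filter, ← Finset.sum_sub_distrib]
  refine (Finset.abs_sum_le_sum_abs _ _).trans ?_
  have hl0 : 0 < Nat.lcm W Q := Nat.lcm_pos hW hQ
  have h2 : ∀ e ∈ range Q, |G e * ∑ n ∈ Icc 1 ⌊3 * X⌋₊, (if n % Q = e then nu X W c n else 0) -
      (if e ≡ c [MOD Nat.gcd W Q] then G e * (MPhi X * (1 / ((Nat.lcm W Q : ℕ) : ℝ))) else 0)| ≤ 5 * K := by
    intro e he
    have he' := mem_range.1 he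
    have hK0 : 0 ≤ K := (h0 0).trans (hK 0)
    split_ifs with hc
    · obtain ⟨x, hx1, hx2⟩ := Nat.chineseRemainder' (show c ≡ e [MOD Nat.gcd W Q] from hc.symm)
      have h3 : ∑ n ∈ Icc 1 ⌊3 * X⌋₊, (if n % Q = e then nu X W c n else 0) =
          ∑ n ∈ Icc 1 ⌊3 * X⌋₊, nu X (Nat.lcm W Q) x n :=
        Finset.sum_congr rfl fun n _ => nu_class X W Q c e hQ n x hx1 hx2 he'
      rw [h3, ← mul_sub, abs_mul, abs_of_nonneg (h0 e)]
      have h4 := sum_nu X hX (Nat.lcm W Q) x hl0 hlcm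
      calc G e * |∑ n ∈ Icc 1 ⌊3 * X⌋₊, nu X (Nat.lcm W Q) x n - MPhi X * (1 / ((Nat.lcm W Q : ℕ) : ℝ))|
          ≤ K * 5 := mul_le_mul (hK e) h4 (abs_nonneg _) hK0
        _ = 5 * K := by ring
    · have h3 : ∑ n ∈ Icc 1 ⌊3 * X⌋₊, (if n % Q = e then nu X W c n else 0) = 0 := by
        apply Finset.sum_eq_zero
        intro n _
        split_ifs with h4
        · unfold nu
          rw [if_neg]
          intro h5
          apply hc
          have h6 : n ≡ e [MOD Q] := by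
            unfold Nat.ModEq
            rw [h4, Nat.mod_eq_of_lt he']
          exact (h6.of_dvd (Nat.gcd_dvd_right W Q)).symm.trans (h5.of_dvd (Nat.gcd_dvd_left W Q))
        · rfl
      rw [h3, mul_zero, sub_zero, abs_zero]
      positivity
  refine (Finset.sum_le_sum h2).trans ?_
  rw [Finset.sum_const, card_range, nsmul_eq_mul]
  apply le_of_eq
  ring

/-- two rows which agree modulo the common divisor -/
theorem per_diff (X : ℝ) (hX : 4 ≤ X) (W Q c1 c2 : ℕ) (hW : 0 < W) (hQ : 0 < Q)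
    (hlcm : ((Nat.lcm W Q : ℕ) : ℝ) ≤ X) (hc : c1 ≡ c2 [MOD Nat.gcd W Q])
    (G : ℕ → ℝ) (hG : ∀ n, G (n + Q) = G n) (K : ℝ) (h0 : ∀ n, 0 ≤ G n) (hK : ∀ n, G n ≤ K) :
    ∑ n ∈ Icc 1 ⌊3 * X⌋₊, nu X W c2 n * G n - ∑ n ∈ Icc 1 ⌊3 * X⌋₊, nu X W c1 n * G n ≤ 10 * (Q * K) := by
  have h1 := per_sum X hX W Q c1 hW hQ hlcm G hG K h0 hK
  have h2 := per_sum X hX W Q c2 hW hQ hlcm G hG K h0 hK
  have h3 : (range Q).filter (fun e => e ≡ c1 [MOD Nat.gcd W Q]) = (range Q).filter (fun e => e ≡ c2 [MOD Nat.gcd W Q]) := by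
    ext e
    simp only [mem_filter, mem_range]
    constructor
    · rintro ⟨a, b⟩
      exact ⟨a, b.trans hc⟩
    · rintro ⟨a, b⟩
      exact ⟨a, b.trans hc.symm⟩
  rw [h3] at h1
  rw [abs_le] at h1 h2
  linarith [h1.1, h2.2]

end Pool.Agent.H560.NP
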