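import Pool.Agent.H560.NP.R4
import Pool.Agent.H560.NP.R5
import Pool.Agent.H560.NP.R6

/-!
Pointwise bounds for the weighted number of primes, and the sums over a row.
-/

set_option autoImplicit false

open Finset Filter Topology
open Pool.Agent.H378R2 Pool.Agent.H510R2.Maier Pool.Agent.T2H52.MG
open Pool.Agent.R529.LD (ev_rpow)

namespace Pool.Agent.H560.NP

/-- the weighted number of the primes `n + h`, `h ≤ Y` -/
noncomputable def PF (f : ℕ → ℝ) (Y n : ℕ) : ℝ := ∑ h ∈ (Icc 1 Y).filter (fun h => (n + h).Prime), f h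

theorem PF_nonneg (f : ℕ → ℝ) (hf : ∀ h, 0 ≤ f h) (Y n : ℕ) : 0 ≤ PF f Y n := Finset.sum_nonneg fun h _ => hf h

theorem PF_le (f : ℕ → ℝ) (hf : ∀ h, 0 ≤ f h) (Y n : ℕ) : PF f Y n ≤ ∑ h ∈ Icc 1 Y, f h :=
  Finset.sum_le_sum_of_subset_of_nonneg (Finset.filter_subset _ _) fun h _ _ => hf h

theorem thF_ge (f : ℕ → ℝ) (hf : ∀ h, 0 ≤ f h) (Y n : ℕ) (X : ℝ) (hX : 0 < X) (hn : X < n) :
    Real.log X * PF f Y n ≤ thF f Y n := by
  unfold thF PF
  rw [Finset.sum_filter, Finset.mul_sum]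
  apply Finset.sum_le_sum
  intro h _
  split_ifs with hp
  · unfold th
    rw [if_pos hp, mul_comm]
    apply mul_le_mul_of_nonneg_left _ (hf h)
    apply Real.log_le_log hX
    push_cast
    have : (0 : ℝ) ≤ h := Nat.cast_nonneg _
    linarith
  · rw [mul_zero]
    exact mul_nonneg (hf h) (th_nonneg _)

theorem thF_le (f : ℕ → ℝ) (hf : ∀ h, 0 ≤ f h) (Y n : ℕ) (x : ℝ) (hn : (n : ℝ) + Y ≤ x) :
    thF f Y n ≤ Real.log x * PF f Y n := by
  unfold thF PF
  rw [Finset.sum_filter, Finset.mul_sum]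
  apply Finset.sum_le_sum
  intro h hh
  have hh' := mem_Icc.1 hh
  unfold th
  split_ifs with hp
  · rw [mul_comm]
    apply mul_le_mul_of_nonneg_right _ (hf h)
    have h1 : (0 : ℝ) < ((n + h : ℕ) : ℝ) := by exact_mod_cast hp.pos
    apply Real.log_le_log h1
    have : (h : ℝ) ≤ Y := by exact_mod_cast hh'.2
    push_cast
    linarith
  · simp

theorem nu_supp {X : ℝ} (hX : 0 < X) {W r n : ℕ} (h : nu X W r n ≠ 0) :
    X < n ∧ (n : ℝ) < Real.exp 1 * X ∧ n ≡ r [MOD W] := by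
  unfold nu at h
  split_ifs at h with hm
  · refine ⟨?_, ?_, hm⟩
    · by_contra h1
      push Not at h1
      exact h (Phi_eq_zero_of_le (by positivity) (by rw [div_le_one hX]; exact h1))
    · by_contra h1
      push Not at h1
      exact h (Phi_eq_zero_of_ge (by rw [le_div_iff₀ hX]; exact h1))
  · exact absurd rfl h

/-- the clamp -/
noncomputable def cl (K x : ℝ) : ℝ := max 0 (min x K)

theorem cl_nonneg (K x : ℝ) : 0 ≤ cl K x := le_max_left _ _

theorem cl_le (K x : ℝ) (hK : 0 ≤ K) : cl K x ≤ K := max_le hK (min_le_right _ _)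

theorem cl_dist (K x y : ℝ) (hy0 : 0 ≤ y) (hyK : y ≤ K) : |y - cl K x| ≤ |y - x| := by
  unfold cl
  rcases le_total x K with h1 | h1
  · rw [min_eq_left h1]
    rcases le_total 0 x with h2 | h2
    · rw [max_eq_right h2]
    · rw [max_eq_left h2, sub_zero, abs_of_nonneg hy0, abs_of_nonneg (by linarith)]
      linarith
  · rw [min_eq_right h1, max_eq_right (hy0.trans hyK), abs_sub_comm y K, abs_sub_comm y x, abs_of_nonneg (by linarith),
      abs_of_nonneg (by linarith)]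
    linarith

/-- the sums over one row: upper bound -/
theorem row_upper (X : ℝ) (hX : 0 < X) (W r : ℕ) (u G : ℕ → ℝ) (e K : ℝ) (hK : 0 ≤ K) (he : 0 ≤ e) (B : Finset ℕ)
    (hB : ∀ n ∈ Icc 1 ⌊3 * X⌋₊, nu X W r n ≠ 0 → n ∉ B → u n ≤ G n + e)
    (hu : ∀ n ∈ Icc 1 ⌊3 * X⌋₊, nu X W r n ≠ 0 → u n ≤ G n + K) :
    ∑ n ∈ Icc 1 ⌊3 * X⌋₊, nu X W r n * u n ≤ ∑ n ∈ Icc 1 ⌊3 * X⌋₊, nu X W r n * G n +
      e * ∑ n ∈ Icc 1 ⌊3 * X⌋₊, nu X W r n + K * B.card := by
  classical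
  have h1 : ∀ n ∈ Icc 1 ⌊3 * X⌋₊, nu X W r n * u n ≤ nu X W r n * G n + e * nu X W r n + K * (if n ∈ B then 1 else 0) := by
    intro n hn
    have hnu := nu_nonneg X W r n
    have hnu1 := nu_le_one X W r n
    by_cases h2 : nu X W r n = 0
    · rw [h2]
      split_ifs
      · nlinarith
      · simp
    · split_ifs with h3
      · have := mul_le_mul_of_nonneg_left (hu n hn h2) hnu
        nlinarith
      · have := mul_le_mul_of_nonneg_left (hB n hn h2 h3) hnu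
        nlinarith
  refine (Finset.sum_le_sum h1).trans ?_
  rw [Finset.sum_add_distrib, Finset.sum_add_distrib, ← Finset.mul_sum, ← Finset.mul_sum]
  have h2 : ∑ n ∈ Icc 1 ⌊3 * X⌋₊, (if n ∈ B then (1 : ℝ) else 0) ≤ B.card := by
    rw [← Finset.sum_filter, Finset.sum_const, nsmul_eq_mul, mul_one]
    have : ((Icc 1 ⌊3 * X⌋₊).filter (fun n => n ∈ B)) ⊆ B := fun n hn => (mem_filter.1 hn).2
    exact_mod_cast Finset.card_le_card this
  have h3 := mul_le_mul_of_nonneg_left h2 hK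
  linarith

/-- the algebra of the contradiction -/
theorem alg_core (c1 c εs εr B V V1 V2 T1 T2 P1 P2 F MW N1 N2 G1 G2 QK Bd K : ℝ)
    (hc1 : 0 < c1) (hc1' : c1 ≤ 1) (hc0 : 0 < c) (hc : c ≤ c1 / 64) (hεs : εs = c1 / 16) (hεr : εr = c1 / 32)
    (hB : 0 ≤ B) (hV : 0 ≤ V) (hV10 : 0 ≤ V1) (hV20 : 0 ≤ V2) (hV1 : V1 ≤ V) (hV2 : V2 ≤ V)
    (hV12 : (c1 - 2 * εs) * V ≤ V2 - V1) (hT2 : |T2 - V2 * B| ≤ εr * (V2 * B)) (hT1 : |T1 - V1 * B| ≤ εr * (V1 * B))
    (hP2 : (1 - 2 * c) * T2 ≤ P2) (hP1 : P1 ≤ (1 + c) * T1) (hVB : MW * F ≤ V * B) (hMW : 0 ≤ MW) (hF : 0 ≤ F)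
    (hN1 : N1 ≤ 2 * MW) (hN2 : N2 ≤ 2 * MW) (hQK : G2 - G1 ≤ QK)
    (hU2 : P2 ≤ G2 + c * F * N2 + K * Bd) (hU1 : G1 ≤ P1 + c * F * N1 + K * Bd) :
    c1 / 4 * (MW * F) ≤ QK + 2 * (K * Bd) := by
  subst hεs hεr
  rw [abs_le] at hT1 hT2
  have hR : 0 ≤ V * B := by positivity
  have a1 : (1 - 2 * c) * ((1 - c1 / 32) * (V2 * B)) ≤ P2 := by
    refine le_trans ?_ hP2
    apply mul_le_mul_of_nonneg_left _ (by linarith)
    linarith [hT2.1]
  have a2 : P1 ≤ (1 + c) * ((1 + c1 / 32) * (V1 * B)) := by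
    refine hP1.trans ?_
    apply mul_le_mul_of_nonneg_left _ (by linarith)
    linarith [hT1.2]
  have a3 : V1 * B ≤ V * B := mul_le_mul_of_nonneg_right hV1 hB
  have a4 : V2 * B ≤ V * B := mul_le_mul_of_nonneg_right hV2 hB
  have a5 : (c1 - 2 * (c1 / 16)) * (V * B) ≤ V2 * B - V1 * B := by
    have := mul_le_mul_of_nonneg_right hV12 hB
    nlinarith
  have b1 : 0 ≤ V1 * B := by positivity
  have b2 : 0 ≤ V2 * B := by positivity
  have a6 : (V2 * B) - (2 * c + c1 / 32) * (V * B) ≤ (1 - 2 * c) * ((1 - c1 / 32) * (V2 * B)) := by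
    have e1 : (1 - 2 * c) * ((1 - c1 / 32) * (V2 * B)) = V2 * B - (2 * c + c1 / 32) * (V2 * B) + 2 * c * (c1 / 32) * (V2 * B) := by
      ring
    have e2 : (2 * c + c1 / 32) * (V2 * B) ≤ (2 * c + c1 / 32) * (V * B) := mul_le_mul_of_nonneg_left a4 (by positivity)
    have e3 : 0 ≤ 2 * c * (c1 / 32) * (V2 * B) := by positivity
    linarith
  have a7 : (1 + c) * ((1 + c1 / 32) * (V1 * B)) ≤ V1 * B + (2 * c + c1 / 32) * (V * B) := by
    have e1 : (1 + c) * ((1 + c1 / 32) * (V1 * B)) = V1 * B + (c + c1 / 32 + c * (c1 / 32)) * (V1 * B) := by ring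
    have e2 : (c + c1 / 32 + c * (c1 / 32)) * (V1 * B) ≤ (2 * c + c1 / 32) * (V * B) := by
      apply mul_le_mul _ a3 b1 (by positivity)
      nlinarith
    linarith
  have a8 : c1 / 2 * (V * B) ≤ P2 - P1 := by
    have e1 : (4 * c + c1 / 16) * (V * B) ≤ (c1 / 8) * (V * B) := mul_le_mul_of_nonneg_right (by linarith) hR
    nlinarith
  have a9 : c1 / 2 * (MW * F) ≤ c1 / 2 * (V * B) := mul_le_mul_of_nonneg_left hVB (by linarith)
  have d1 : c * F * N2 ≤ c1 / 32 * (MW * F) := by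
    calc c * F * N2 ≤ c * F * (2 * MW) := mul_le_mul_of_nonneg_left hN2 (by positivity)
      _ = 2 * c * (MW * F) := by ring
      _ ≤ _ := mul_le_mul_of_nonneg_right (by linarith) (by positivity)
  have d2 : c * F * N1 ≤ c1 / 32 * (MW * F) := by
    calc c * F * N1 ≤ c * F * (2 * MW) := mul_le_mul_of_nonneg_left hN1 (by positivity)
      _ = 2 * c * (MW * F) := by ring
      _ ≤ _ := mul_le_mul_of_nonneg_right (by linarith) (by positivity)
  have hMF : 0 ≤ c1 * (MW * F) := by positivity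
  linarith

end Pool.Agent.H560.NP
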