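import Pool.Agent.H560.NP.R7

/-!
No prediction by a periodic function, the core.
-/

set_option autoImplicit false

open Finset Filter Topology
open Pool.Agent.H378R2 Pool.Agent.H510R2.Maier Pool.Agent.T2H52.MG
open Pool.Agent.R529.LD (ev_rpow)

namespace Pool.Agent.H560.NP

theorem ev_final (δ θ0 θ : ℝ) (h1 : δ < θ) (h2 : θ0 < θ) (h0 : 0 < θ) (hθ1 : θ < 1) (c : ℝ) (hc : 0 < c) :
    ∀ᶠ L : ℝ in atTop, c * (L * Real.exp (L ^ δ) * Real.exp (3 / 2 * L ^ θ0)) ≤ Real.exp (L ^ θ) ∧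
      c * (L * Real.exp (L ^ δ) * Real.exp (3 / 2 * L ^ θ0)) ≤ Real.exp L ∧
      c * Real.exp (L / 2) ≤ Real.exp L ∧ c ≤ Real.exp (L ^ θ) := by
  have e1 := ev_rpow δ θ 8 h1
  have e2 := ev_rpow θ0 θ 8 h2
  have e3 := ev_rpow θ 1 1 hθ1
  have e4 : ∀ᶠ L : ℝ in atTop, L ≤ Real.exp (L ^ θ / 4) := by
    have h3 : Tendsto (fun L : ℝ => L ^ θ) atTop atTop := tendsto_rpow_atTop h0
    obtain ⟨m, hm⟩ := exists_nat_ge (1 / θ)
    have h4 : ∀ᶠ x : ℝ in atTop, x ^ m ≤ Real.exp (x / 4) := by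
      have h5 := (isLittleO_pow_exp_pos_mul_atTop (k := m) (b := 1 / 4) (by norm_num)).bound (show (0 : ℝ) < 1 by norm_num)
      filter_upwards [h5, eventually_ge_atTop (0 : ℝ)] with x h6 h7
      rw [Real.norm_of_nonneg (by positivity), Real.norm_of_nonneg (by positivity), one_mul] at h6
      rwa [show x / 4 = 1 / 4 * x by ring]
    filter_upwards [h3.eventually h4, eventually_ge_atTop (1 : ℝ)] with L g1 g2
    refine le_trans ?_ g1
    rw [← Real.rpow_natCast, ← Real.rpow_mul (by linarith)]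
    nth_rewrite 1 [← Real.rpow_one L]
    apply Real.rpow_le_rpow_of_exponent_le g2
    rw [div_le_iff₀ h0] at hm
    linarith
  have e5 : ∀ᶠ L : ℝ in atTop, c ≤ Real.exp (L ^ θ / 4) := by
    have h3 : Tendsto (fun L : ℝ => Real.exp (L ^ θ / 4)) atTop atTop :=
      Real.tendsto_exp_atTop.comp ((tendsto_rpow_atTop h0).atTop_div_const (by norm_num))
    exact h3.eventually_ge_atTop c
  filter_upwards [e1, e2, e3, e4, e5, eventually_ge_atTop (1 : ℝ)] with L g1 g2 g3 g4 g5 g6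
  have hL0 : 0 < L := by linarith
  rw [one_mul, Real.rpow_one] at g3
  have hLθ : 0 < L ^ θ := by positivity
  have hmain : c * (L * Real.exp (L ^ δ) * Real.exp (3 / 2 * L ^ θ0)) ≤ Real.exp (L ^ θ) := by
    have h3 : Real.exp (L ^ δ) ≤ Real.exp (L ^ θ / 8) := Real.exp_le_exp.2 (by linarith)
    have h4 : Real.exp (3 / 2 * L ^ θ0) ≤ Real.exp (L ^ θ / 4) := Real.exp_le_exp.2 (by linarith)
    calc c * (L * Real.exp (L ^ δ) * Real.exp (3 / 2 * L ^ θ0))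
        ≤ Real.exp (L ^ θ / 4) * (Real.exp (L ^ θ / 4) * Real.exp (L ^ θ / 8) * Real.exp (L ^ θ / 4)) := by gcongr
      _ = Real.exp (L ^ θ / 4 + (L ^ θ / 4 + L ^ θ / 8 + L ^ θ / 4)) := by
          rw [← Real.exp_add, ← Real.exp_add, ← Real.exp_add]
      _ ≤ _ := Real.exp_le_exp.2 (by linarith)
  refine ⟨hmain, hmain.trans (Real.exp_le_exp.2 g3), ?_, g5.trans (Real.exp_le_exp.2 (by linarith))⟩
  calc c * Real.exp (L / 2) ≤ Real.exp (L ^ θ / 4) * Real.exp (L / 2) := by gcongr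
    _ = Real.exp (L ^ θ / 4 + L / 2) := by rw [← Real.exp_add]
    _ ≤ _ := Real.exp_le_exp.2 (by linarith)

/-- facts on the modulus -/
theorem mod_facts (X : ℝ) (w z : ℕ) (S : Finset ℕ) (ps Q q : ℕ) (hzy : z ≤ yy X) (hq : Squarefree q) (hqw : q ≤ w)
    (hqz : q ≤ z) (hqZ : q ≤ z2 X) (hps : GoodP q ps) (hS : GoodS X S) :
    Disjoint (AS X w z S ps Q) (DD X w z S ps Q) ∧
    (∏ p ∈ AS X w z S ps Q, p) * (∏ p ∈ DD X w z S ps Q, p) = WZ X z S ps ∧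
    q ∣ ∏ p ∈ AS X w z S ps Q, p ∧
    Nat.gcd (WZ X z S ps) Q ∣ ∏ p ∈ AS X w z S ps Q, p ∧
    BE (PZ X z S ps) ≤ BE (AS X w z S ps Q) := by
  classical
  have hq0 : q ≠ 0 := hq.ne_zero
  have hmul : (∏ p ∈ AS X w z S ps Q, p) * (∏ p ∈ DD X w z S ps Q, p) = WZ X z S ps := by
    unfold AS DD WZ
    rw [mul_comm]
    exact Finset.prod_filter_mul_prod_filter_not _ _ _
  refine ⟨?_, hmul, ?_, ?_, ?_⟩
  · unfold AS DD
    exact (Finset.disjoint_filter_filter_not _ _ _).symm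
  · have h1 : ∏ p ∈ q.primeFactors, p = q := Nat.prod_primeFactors_of_squarefree hq
    rw [← h1]
    apply Finset.prod_dvd_prod_of_subset
    intro p hp
    have hp1 := Nat.prime_of_mem_primeFactors hp
    have hp2 : p ≤ q := Nat.le_of_mem_primeFactors hp
    unfold AS
    rw [mem_filter]
    refine ⟨(mem_PZ hzy).2 ⟨hp2.trans hqz, hp1, ?_, ?_⟩, ?_⟩
    · intro h2
      have := (hS.1 p h2).2.1
      omega
    · intro h2
      rcases hps with h3 | h3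
      · rw [h2, h3] at hp1
        exact Nat.not_prime_one hp1
      · omega
    · rintro ⟨h2, -⟩
      omega
  · have hD : (∏ p ∈ DD X w z S ps Q, p).Coprime Q := by
      apply Nat.Coprime.prod_left
      intro p hp
      have h1 := mem_filter.1 hp
      exact (Nat.Prime.coprime_iff_not_dvd (PZ_prime h1.1)).2 h1.2.2
    rw [← hmul, Nat.Coprime.gcd_mul_right_cancel _ hD]
    exact Nat.gcd_dvd_left _ _
  · unfold BE
    have h4 : AS X w z S ps Q ⊆ PZ X z S ps := Finset.filter_subset _ _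
    rw [← Finset.prod_sdiff h4]
    have hpos : ∀ p ∈ PZ X z S ps, 0 ≤ 1 - 1 / (p : ℝ) := by
      intro p hp
      have h6 : (2 : ℝ) ≤ p := by exact_mod_cast (PZ_prime hp).two_le
      have h7 : 1 / (p : ℝ) ≤ 1 := by rw [div_le_one (by linarith)]; linarith
      linarith
    have h5 : ∏ p ∈ PZ X z S ps \ AS X w z S ps Q, (1 - 1 / (p : ℝ)) ≤ 1 := by
      apply Finset.prod_le_one
      · intro p hp
        exact hpos p (mem_sdiff.1 hp).1
      · intro p hp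
        have : (0 : ℝ) ≤ 1 / (p : ℝ) := by positivity
        linarith
    calc _ ≤ 1 * ∏ p ∈ AS X w z S ps Q, (1 - 1 / (p : ℝ)) := by
          apply mul_le_mul_of_nonneg_right h5
          exact Finset.prod_nonneg fun p hp => hpos p (h4 hp)
      _ = _ := one_mul _

set_option maxHeartbeats 4000000 in
/-- one `X` -/
theorem core_one (X : ℝ) (k w z U1 U2 q ps Q a Y : ℕ) (S : Finset ℕ) (c1 c L : ℝ) (f G lam : ℕ → ℝ)
    (hL : L = Real.log X) (hX40 : 40 ≤ X) (hzy : z ≤ yy X) (hq : Squarefree q) (hqw : q ≤ w)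
    (hqz : q ≤ z) (hqZ : q ≤ z2 X) (hps : GoodP q ps) (hS : GoodS X S) (hQ1 : 1 ≤ Q)
    (hz1 : 1 ≤ z) (hU1 : 1 ≤ U1) (hU2 : 1 ≤ U2)
    (hUY1 : U1 + Y < (w + 1) ^ (2 * k + 2)) (hUY2 : U2 + Y < (w + 1) ^ (2 * k + 3))
    (hε1 : (z : ℝ) ^ (2 * k + 1) ≤ c1 / 16 * U1) (hε2 : (z : ℝ) ^ (2 * k + 2) ≤ c1 / 16 * U2)
    (hEJ : c1 ≤ EJ (DD X w z S ps Q) (2 * k + 2))
    (hrow : ∀ r : ℕ, |∑ n ∈ Icc 1 ⌊3 * X⌋₊, nu X (WZ X z S ps) r n * thF f Y n -
          SF (WZ X z S ps) r Y f * (MPhi X / (WZ X z S ps).totient)| ≤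
        c1 / 32 * (SF (WZ X z S ps) r Y f * (MPhi X / (WZ X z S ps).totient)))
    (hc1 : 0 < c1) (hc1' : c1 ≤ 1) (hc0 : 0 < c) (hc : c ≤ c1 / 64) (hL2 : 2 / c ≤ L)
    (hYX : (Y : ℝ) ≤ X) (hWQ : 3200 / c1 * (L * Q * WZ X z S ps) ≤ X)
    (hf : ∀ h, 0 ≤ f h) (hfq : ∀ h, f h ≠ 0 → (a + h).Coprime q) (hF : 0 < ∑ h ∈ Icc 1 Y, f h)
    (hG : ∀ n, G (n + Q) = G n)
    (hlam : ∀ n : ℕ, X < n → (n : ℝ) < 3 * X → (1 - c) * L ≤ lam n ∧ lam n ≤ (1 + c) * L) :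
    c1 / (640 * L) * (X / WZ X z S ps) ≤ (((Icc 1 ⌊3 * X⌋₊).filter (fun n : ℕ => X < n ∧ (n : ℝ) < Real.exp 1 * X ∧
      n ≡ a [MOD q] ∧ c * ∑ h ∈ Icc 1 Y, f h ≤ |lam n * PF f Y n - G n|)).card : ℝ) := by
  classical
  obtain ⟨hAD, hmul, hqA, hgcd, hBEA⟩ := mod_facts X w z S ps Q q hzy hq hqw hqz hqZ hps hS
  set A := AS X w z S ps Q with hA
  set D := DD X w z S ps Q with hD
  set W := WZ X z S ps with hW
  have hAp : ∀ p ∈ A, p.Prime := fun p hp => PZ_prime (mem_filter.1 hp).1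
  have hDp : ∀ p ∈ D, p.Prime := fun p hp => PZ_prime (mem_filter.1 hp).1
  have hDw : ∀ p ∈ D, w < p := fun p hp => (mem_filter.1 hp).2.1
  have hDz : ∀ p ∈ D, p ≤ z := fun p hp => PZ_le (mem_filter.1 hp).1
  have hXpos : 0 < X := by linarith
  have hLpos : 0 < L := lt_of_lt_of_le (by positivity) hL2
  have hq0 : 0 < q := Nat.pos_of_ne_zero hq.ne_zero
  obtain ⟨r, hr1, hr2⟩ := class_r A hAp q a Y hq0 hqA f hf hfq
  obtain ⟨c1', c2', hc1r, hc2r, hV1, hV2, hV12⟩ := two_classes A D hAp hDp hAD w z k U1 U2 Y hDw hDz hz1 hU1 hU2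
    hUY1 hUY2 (c1 / 16) hε1 hε2 f hf r
  rw [hmul] at hV1 hV2 hV12
  set F := ∑ h ∈ Icc 1 Y, f h with hFdef
  have hW0 : 0 < W := WZ_pos X z S ps
  have hWr : (0 : ℝ) < W := by exact_mod_cast hW0
  have hBE0 : 0 < BE (PZ X z S ps) := BE_pos fun p hp => PZ_prime hp
  have hφ : (W.totient : ℝ) = W * BE (PZ X z S ps) := totient_WZ X z S ps
  have hM1 := MPhi_ge X hX40
  set M := MPhi X with hM
  have hM0 : 0 < M := by linarith
  set K := 2 * L * F with hK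
  have hK0 : 0 ≤ K := by positivity
  set G' : ℕ → ℝ := fun n => cl K (G n) with hG'
  have hG'per : ∀ n, G' (n + Q) = G' n := by
    intro n
    simp only [hG']
    rw [hG]
  set Bd := (Icc 1 ⌊3 * X⌋₊).filter (fun n : ℕ => X < n ∧ (n : ℝ) < Real.exp 1 * X ∧
      n ≡ a [MOD q] ∧ c * F ≤ |lam n * PF f Y n - G n|) with hBd
  have he3 : Real.exp 1 * X ≤ 3 * X := by
    have := Real.exp_one_lt_d9
    nlinarith
  have hcl1 : c ≤ 1 := by linarith
  -- pointwise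
  have hpt : ∀ n : ℕ, X < n → (n : ℝ) < 3 * X → 0 ≤ lam n * PF f Y n ∧ lam n * PF f Y n ≤ K ∧
      (1 - 2 * c) * thF f Y n ≤ lam n * PF f Y n ∧ lam n * PF f Y n ≤ (1 + c) * thF f Y n := by
    intro n hn1 hn2
    obtain ⟨g1, g2⟩ := hlam n hn1 hn2
    have hP0 := PF_nonneg f hf Y n
    have hP1 := PF_le f hf Y n
    have hlam0 : 0 ≤ lam n := by nlinarith
    have ht1 := thF_ge f hf Y n X hXpos hn1
    have ht2 := thF_le f hf Y n (4 * X) (by linarith)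
    rw [← hL] at ht1
    have hl4 : Real.log (4 * X) ≤ L + 2 := by
      rw [Real.log_mul (by norm_num) hXpos.ne', hL]
      have : Real.log 4 ≤ 2 := by
        rw [show (4 : ℝ) = 2 ^ 2 by norm_num, Real.log_pow]
        have := Real.log_two_lt_d9
        push_cast; linarith
      linarith
    refine ⟨by positivity, ?_, ?_, ?_⟩
    · calc lam n * PF f Y n ≤ ((1 + c) * L) * F := mul_le_mul g2 hP1 hP0 (by positivity)
        _ ≤ (2 * L) * F := by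
            apply mul_le_mul_of_nonneg_right _ hF.le
            nlinarith
        _ = K := by rw [hK]
    · have h5 : thF f Y n ≤ (L + 2) * PF f Y n := ht2.trans (mul_le_mul_of_nonneg_right hl4 hP0)
      have h6 : (1 - 2 * c) * (L + 2) ≤ (1 - c) * L := by
        rw [div_le_iff₀ hc0] at hL2
        nlinarith
      calc (1 - 2 * c) * thF f Y n ≤ (1 - 2 * c) * ((L + 2) * PF f Y n) :=
            mul_le_mul_of_nonneg_left h5 (by linarith)
        _ = ((1 - 2 * c) * (L + 2)) * PF f Y n := by ring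
        _ ≤ ((1 - c) * L) * PF f Y n := mul_le_mul_of_nonneg_right h6 hP0
        _ ≤ lam n * PF f Y n := mul_le_mul_of_nonneg_right g1 hP0
    · calc lam n * PF f Y n ≤ ((1 + c) * L) * PF f Y n := mul_le_mul_of_nonneg_right g2 hP0
        _ = (1 + c) * (L * PF f Y n) := by ring
        _ ≤ _ := mul_le_mul_of_nonneg_left ht1 (by linarith)
  -- the rows
  have hrow_sum1 : ∀ cc : ℕ, (1 - 2 * c) * ∑ n ∈ Icc 1 ⌊3 * X⌋₊, nu X W cc n * thF f Y n ≤
      ∑ n ∈ Icc 1 ⌊3 * X⌋₊, nu X W cc n * (lam n * PF f Y n) := by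
    intro cc
    rw [Finset.mul_sum]
    apply Finset.sum_le_sum
    intro n _
    by_cases h2 : nu X W cc n = 0
    · rw [h2]; simp
    · obtain ⟨s1, s2, -⟩ := nu_supp hXpos h2
      have := (hpt n s1 (lt_of_lt_of_le s2 he3)).2.2.1
      have := mul_le_mul_of_nonneg_left this (nu_nonneg X W cc n)
      linarith
  have hrow_sum2 : ∀ cc : ℕ, ∑ n ∈ Icc 1 ⌊3 * X⌋₊, nu X W cc n * (lam n * PF f Y n) ≤
      (1 + c) * ∑ n ∈ Icc 1 ⌊3 * X⌋₊, nu X W cc n * thF f Y n := by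
    intro cc
    rw [Finset.mul_sum]
    apply Finset.sum_le_sum
    intro n _
    by_cases h2 : nu X W cc n = 0
    · rw [h2]; simp
    · obtain ⟨s1, s2, -⟩ := nu_supp hXpos h2
      have := (hpt n s1 (lt_of_lt_of_le s2 he3)).2.2.2
      have := mul_le_mul_of_nonneg_left this (nu_nonneg X W cc n)
      linarith
  have hWA : ∀ cc : ℕ, cc ≡ r [MOD ∏ p ∈ A, p] → ∀ n : ℕ, n ≡ cc [MOD W] → n ≡ a [MOD q] := by
    intro cc hcc n hn
    have h1 : n ≡ cc [MOD ∏ p ∈ A, p] := hn.of_dvd ⟨∏ p ∈ D, p, hmul.symm⟩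
    exact ((h1.trans hcc).of_dvd hqA).trans hr1
  have hnotB : ∀ cc : ℕ, cc ≡ r [MOD ∏ p ∈ A, p] → ∀ n ∈ Icc 1 ⌊3 * X⌋₊, nu X W cc n ≠ 0 → n ∉ Bd →
      |lam n * PF f Y n - G' n| ≤ c * F := by
    intro cc hcc n hn hnu hnB
    obtain ⟨s1, s2, s3⟩ := nu_supp hXpos hnu
    have h1 : ¬ (c * F ≤ |lam n * PF f Y n - G n|) := by
      intro h2
      exact hnB (mem_filter.2 ⟨hn, s1, s2, hWA cc hcc n s3, h2⟩)
    push Not at h1
    obtain ⟨p1, p2, -, -⟩ := hpt n s1 (lt_of_lt_of_le s2 he3)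
    exact (cl_dist K (G n) _ p1 p2).trans h1.le
  have hU : ∀ cc : ℕ, cc ≡ r [MOD ∏ p ∈ A, p] →
      ∑ n ∈ Icc 1 ⌊3 * X⌋₊, nu X W cc n * (lam n * PF f Y n) ≤ ∑ n ∈ Icc 1 ⌊3 * X⌋₊, nu X W cc n * G' n +
        c * F * ∑ n ∈ Icc 1 ⌊3 * X⌋₊, nu X W cc n + K * Bd.card ∧
      ∑ n ∈ Icc 1 ⌊3 * X⌋₊, nu X W cc n * G' n ≤ ∑ n ∈ Icc 1 ⌊3 * X⌋₊, nu X W cc n * (lam n * PF f Y n) +
        c * F * ∑ n ∈ Icc 1 ⌊3 * X⌋₊, nu X W cc n + K * Bd.card := by
    intro cc hcc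
    constructor
    · apply row_upper X hXpos W cc _ _ (c * F) K hK0 (by positivity) Bd
      · intro n hn hnu hnB
        have := (abs_le.1 (hnotB cc hcc n hn hnu hnB)).2
        linarith
      · intro n hn hnu
        obtain ⟨s1, s2, -⟩ := nu_supp hXpos hnu
        have h1 := (hpt n s1 (lt_of_lt_of_le s2 he3)).2.1
        have h2 : 0 ≤ G' n := cl_nonneg _ _
        linarith
    · apply row_upper X hXpos W cc _ _ (c * F) K hK0 (by positivity) Bd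
      · intro n hn hnu hnB
        have := (abs_le.1 (hnotB cc hcc n hn hnu hnB)).1
        linarith
      · intro n hn hnu
        obtain ⟨s1, s2, -⟩ := nu_supp hXpos hnu
        have h1 := (hpt n s1 (lt_of_lt_of_le s2 he3)).1
        have h2 : G' n ≤ K := cl_le _ _ hK0
        linarith
  -- sizes
  have hQr : (1 : ℝ) ≤ Q := by exact_mod_cast hQ1
  have hL1 : 1 ≤ L := by
    rw [div_le_iff₀ hc0] at hL2
    nlinarith
  have h3200 : 3200 * (L * Q * W) ≤ c1 * X := by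
    have h1 : 3200 / c1 * (L * Q * W) = 3200 * (L * Q * W) / c1 := by ring
    rw [h1, div_le_iff₀ hc1] at hWQ
    linarith
  have hLQW : (W : ℝ) ≤ L * Q * W := by
    have h1 : 1 ≤ L * Q := one_le_mul_of_one_le_of_one_le hL1 hQr
    nlinarith
  have hQW : (Q : ℝ) * W ≤ L * Q * W := by
    have h1 : (0 : ℝ) ≤ Q * W := by positivity
    nlinarith
  have hWX : (W : ℝ) ≤ X := by nlinarith
  have hlcm : ((Nat.lcm W Q : ℕ) : ℝ) ≤ X := by
    have h1 : Nat.lcm W Q ≤ W * Q := Nat.le_of_dvd (Nat.mul_pos hW0 (by omega)) (Nat.lcm_dvd_mul W Q)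
    have h2 : ((Nat.lcm W Q : ℕ) : ℝ) ≤ (W : ℝ) * Q := by exact_mod_cast h1
    nlinarith
  have hN : ∀ cc : ℕ, ∑ n ∈ Icc 1 ⌊3 * X⌋₊, nu X W cc n ≤ 2 * (M / W) := by
    intro cc
    have h1 := (abs_le.1 (sum_nu X (by linarith) W cc hW0 hWX)).2
    have h2 : 5 ≤ M / W := by
      rw [le_div_iff₀ hWr]
      nlinarith
    have h3 : M * (1 / (W : ℝ)) = M / W := by ring
    linarith
  have hgcdc : c1' ≡ c2' [MOD Nat.gcd W Q] := (hc1r.trans hc2r.symm).of_dvd hgcd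
  have hdiff := per_diff X (by linarith) W Q c1' c2' hW0 (by omega) hlcm hgcdc G' hG'per K (fun n => cl_nonneg _ _)
    (fun n => cl_le _ _ hK0)
  have hVB : M / W * F ≤ SF (∏ p ∈ A, p) r Y f * (M / W.totient) := by
    have h1 : BE (PZ X z S ps) * F ≤ SF (∏ p ∈ A, p) r Y f := (mul_le_mul_of_nonneg_right hBEA hF.le).trans hr2
    calc M / W * F = (BE (PZ X z S ps) * F) * (M / (W * BE (PZ X z S ps))) := by field_simp
      _ ≤ SF (∏ p ∈ A, p) r Y f * (M / (W * BE (PZ X z S ps))) := mul_le_mul_of_nonneg_right h1 (by positivity)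
      _ = _ := by rw [hφ]
  have hφ0 : (0 : ℝ) < W.totient := by exact_mod_cast Nat.totient_pos.2 hW0
  have halg := alg_core c1 c (c1 / 16) (c1 / 32) (M / W.totient) (SF (∏ p ∈ A, p) r Y f) (SF W c1' Y f) (SF W c2' Y f)
    (∑ n ∈ Icc 1 ⌊3 * X⌋₊, nu X W c1' n * thF f Y n) (∑ n ∈ Icc 1 ⌊3 * X⌋₊, nu X W c2' n * thF f Y n)
    (∑ n ∈ Icc 1 ⌊3 * X⌋₊, nu X W c1' n * (lam n * PF f Y n)) (∑ n ∈ Icc 1 ⌊3 * X⌋₊, nu X W c2' n * (lam n * PF f Y n))
    F (M / W) (∑ n ∈ Icc 1 ⌊3 * X⌋₊, nu X W c1' n) (∑ n ∈ Icc 1 ⌊3 * X⌋₊, nu X W c2' n)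
    (∑ n ∈ Icc 1 ⌊3 * X⌋₊, nu X W c1' n * G' n) (∑ n ∈ Icc 1 ⌊3 * X⌋₊, nu X W c2' n * G' n)
    (10 * (Q * K)) Bd.card K hc1 hc1' hc0 hc rfl rfl (by positivity) (SF_nonneg _ _ _ _ hf) (SF_nonneg _ _ _ _ hf)
    (SF_nonneg _ _ _ _ hf) hV1 hV2
    ((mul_le_mul_of_nonneg_right (by linarith) (SF_nonneg _ _ _ _ hf)).trans hV12)
    (hrow c2') (hrow c1') (hrow_sum1 c2') (hrow_sum2 c1') hVB (by positivity) hF.le (hN c1') (hN c2') hdiff
    (hU c2' hc2r).1 (hU c1' hc1r).2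
  -- conclusion
  have h1 : c1 / 4 * (M / W) ≤ 20 * (Q * L) + 4 * L * Bd.card := by
    have h2 : c1 / 4 * (M / W * F) = (c1 / 4 * (M / W)) * F := by ring
    have h3 : 10 * (Q * K) + 2 * (K * Bd.card) = (20 * (Q * L) + 4 * L * Bd.card) * F := by
      rw [hK]; ring
    rw [h2, h3] at halg
    exact le_of_mul_le_mul_right halg hF
  have h2 : 20 * (Q * L) ≤ c1 / 160 * (X / W) := by
    rw [mul_div_assoc', le_div_iff₀ hWr]
    nlinarith
  have h3 : c1 / 80 * (X / W) ≤ c1 / 4 * (M / W) := by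
    have h4 : X / W ≤ 20 * (M / W) := by
      rw [mul_div_assoc']
      gcongr
      linarith
    nlinarith
  have h4 : c1 / 160 * (X / W) ≤ 4 * L * Bd.card := by linarith
  have h5 : c1 / (640 * L) * (X / W) = (c1 / 160 * (X / W)) / (4 * L) := by
    field_simp
    ring
  rw [h5, div_le_iff₀ (by positivity)]
  linarith

end Pool.Agent.H560.NP
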