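import Pool.Agent.H560.NP.R8

/-!
No prediction by a periodic function, for all large `X`.
-/

set_option autoImplicit false

open Finset Filter Topology
open Pool.Agent.H378R2 Pool.Agent.H510R2.Maier Pool.Agent.T2H52.MG
open Pool.Agent.R529.LD (ev_rpow)

namespace Pool.Agent.H560.NP

set_option maxHeartbeats 4000000 in
theorem core_ev (k0 : ℕ) (δ : ℝ) (hδ1 : δ < 1) (q : ℕ) (hq : Squarefree q) : ∃ c θ : ℝ, 0 < c ∧ c ≤ 1 / 64 ∧ 0 < θ ∧
    θ < 1 ∧ ∀ᶠ X : ℝ in atTop, ∀ (Q a Y : ℕ) (f G lam : ℕ → ℝ), 1 ≤ Q → (Q : ℝ) ≤ Real.exp ((Real.log X) ^ δ) →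
      (Y : ℝ) ≤ (Real.log X) ^ k0 → (∀ h, 0 ≤ f h) → (∀ h, f h ≠ 0 → (a + h).Coprime q) → (∀ n, G (n + Q) = G n) →
      (∀ n : ℕ, X < n → (n : ℝ) < 3 * X → (1 - c) * Real.log X ≤ lam n ∧ lam n ≤ (1 + c) * Real.log X) →
      X * Real.exp (-((Real.log X) ^ θ)) ≤ (((Icc 1 ⌊3 * X⌋₊).filter (fun n : ℕ => X < n ∧ (n : ℝ) < Real.exp 1 * X ∧
        n ≡ a [MOD q] ∧ c * ∑ h ∈ Icc 1 Y, f h ≤ |lam n * PF f Y n - G n|)).card : ℝ) := by
  classical
  obtain ⟨κ, hκdef⟩ : ∃ κ : ℝ, κ = (max δ 0 + 1) / 2 := ⟨_, rfl⟩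
  have hmax : max δ 0 < 1 := max_lt hδ1 one_pos
  have hm0 : 0 ≤ max δ 0 := le_max_right _ _
  have hmδ : δ ≤ max δ 0 := le_max_left _ _
  have hκ0 : 0 < κ := by rw [hκdef]; linarith
  have hκ1 : κ < 1 := by rw [hκdef]; linarith
  have hδκ : δ < κ := by rw [hκdef]; linarith
  obtain ⟨θ0, u1, u2, k, hκθ, hθ01, hsc⟩ := scales_ex k0 κ hκ0 hκ1
  obtain ⟨α, hα⟩ : ∃ α : ℝ, α = Real.log (θ0 / κ) / 4 := ⟨_, rfl⟩
  have hα0 : 0 < α := by
    rw [hα]
    have := Real.log_pos (show 1 < θ0 / κ by rw [one_lt_div hκ0]; exact hκθ)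
    positivity
  obtain ⟨c1, hc1def⟩ : ∃ c1 : ℝ, c1 = min 1 (α ^ (2 * k + 2) / (2 * k + 2).factorial) := ⟨_, rfl⟩
  have hc1 : 0 < c1 := by
    rw [hc1def]
    exact lt_min one_pos (by positivity)
  have hc11 : c1 ≤ 1 := by rw [hc1def]; exact min_le_left _ _
  have hc12 : c1 ≤ α ^ (2 * k + 2) / (2 * k + 2).factorial := by rw [hc1def]; exact min_le_right _ _
  have hq0 : 0 < q := Nat.pos_of_ne_zero hq.ne_zero
  have hqr : (0 : ℝ) < q := by exact_mod_cast hq0
  obtain ⟨X0, hX0⟩ := rows_F k0 (c1 / 32) (by positivity) (by linarith) q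
  have hθ00 : 0 < θ0 := by linarith
  have hlt := Real.tendsto_log_atTop
  have hll : Tendsto (fun X : ℝ => Real.log (Real.log X)) atTop atTop := hlt.comp hlt
  have hLLκ : Tendsto (fun X : ℝ => LL κ X) atTop atTop :=
    tendsto_nat_floor_atTop.comp ((tendsto_rpow_atTop hκ0).comp hlt)
  have hLLθ : Tendsto (fun X : ℝ => LL θ0 X) atTop atTop :=
    tendsto_nat_floor_atTop.comp ((tendsto_rpow_atTop hθ00).comp hlt)
  have hLLκr : Tendsto (fun X : ℝ => (LL κ X : ℝ)) atTop atTop := tendsto_natCast_atTop_atTop.comp hLLκ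
  have hz2 : ∀ᶠ X : ℝ in atTop, q ≤ z2 X := by
    filter_upwards [hll.eventually_ge_atTop (max 1 (q : ℝ))] with X hX
    have h1 : 1 ≤ Real.log (Real.log X) := (le_max_left _ _).trans hX
    have h2 : (q : ℝ) ≤ Real.log (Real.log X) := (le_max_right _ _).trans hX
    unfold z2
    have h3 : (q : ℝ) ≤ (⌈(Real.log (Real.log X)) ^ 3⌉₊ : ℝ) := by
      refine le_trans ?_ (Nat.le_ceil _)
      exact h2.trans (le_self_pow₀ h1 (by norm_num))
    exact_mod_cast h3
  refine ⟨c1 / 64, (θ0 + 1) / 2, by positivity, by linarith, by linarith, by linarith, ?_⟩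
  have hfin := ev_final δ θ0 ((θ0 + 1) / 2) (by linarith) (by linarith) (by linarith) (by linarith)
    (max (3200 / c1) (200 * q)) (by positivity)
  filter_upwards [e1_lower δ κ θ0 hδκ hκ0 hκθ hθ01, hsc (c1 / 16) (by positivity), eventually_ge_atTop X0,
    eventually_ge_atTop (40 : ℝ), hlt.eventually (ev_rpow θ0 1 1100 hθ01), hLLκ.eventually_ge_atTop (max q 1),
    hLLθ.eventually_ge_atTop q, hz2, hLLκr.eventually_ge_atTop (((2 * k + 2 : ℕ) : ℝ) / α),
    hlt.eventually hfin, hlt.eventually_ge_atTop (max 1 (2 / (c1 / 64))), Pool.Agent.R529.BU.ev_pow_le k0] with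
    X g1 g2 g3 g4 g5 g6 g7 g8 g9 g10 g11 g12
  intro Q a Y f G lam hQ1 hQ hY hf hfq hG hlam
  obtain ⟨s1, s2, s3, s4, s5, s6⟩ := g2
  obtain ⟨t1, t2⟩ := s6 Y hY
  obtain ⟨ps, S, hps, hS, hrow⟩ := hX0 X g3
  obtain ⟨L, hL⟩ : ∃ L : ℝ, L = Real.log X := ⟨_, rfl⟩
  rw [← hL] at hlam hY hQ g5 g10 g11 ⊢
  have hXpos : 0 < X := by linarith
  have hL1 : 1 ≤ L := (le_max_left _ _).trans g11
  have hL2 : 2 / (c1 / 64) ≤ L := (le_max_right _ _).trans g11
  have hL0 : 0 < L := by linarith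
  have hexpL : Real.exp L = X := by rw [hL]; exact Real.exp_log hXpos
  obtain ⟨w, hw⟩ : ∃ w : ℕ, w = LL κ X := ⟨_, rfl⟩
  obtain ⟨z, hz⟩ : ∃ z : ℕ, z = LL θ0 X := ⟨_, rfl⟩
  rw [← hw] at g6 g9 t1 t2
  rw [← hz] at g7 s1 s4 s5
  have g1' := g1 ps S Q
  rw [← hw, ← hz, ← hα, ← hL] at g1'
  have hzL : (z : ℝ) ≤ L ^ θ0 := by
    rw [hz, hL]
    exact Nat.floor_le (by rw [← hL]; positivity)
  rw [Real.rpow_one] at g5
  have hz1100 : (z : ℝ) ≤ L / 1100 := by linarith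
  have hzy : z ≤ yy X := by
    unfold yy
    apply Nat.le_floor
    rw [← hL]
    have : L / 1100 ≤ L / 1000 := div_le_div_of_nonneg_left hL0.le (by norm_num) (by norm_num)
    linarith
  have hw1 : 1 ≤ w := (le_max_right _ _).trans g6
  have hw0 : (0 : ℝ) < w := by exact_mod_cast hw1
  have hps1 : GoodP 1 ps := by
    rcases hps with h | h
    · exact Or.inl h
    · exact Or.inr ⟨h.1, h.1.one_lt⟩
  obtain ⟨C, hC⟩ : ∃ C : ℝ, C = max (3200 / c1) (200 * q) := ⟨_, rfl⟩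
  rw [← hC] at g10
  have hC1 : 3200 / c1 ≤ C := by rw [hC]; exact le_max_left _ _
  have hC2 : 200 * (q : ℝ) ≤ C := by rw [hC]; exact le_max_right _ _
  obtain ⟨f1, f2, f3, f4⟩ := g10
  have hWle : (WZ X z S ps : ℝ) ≤ Real.exp (3 / 2 * L ^ θ0) :=
    (WZ_le X z S ps).trans (Real.exp_le_exp.2 (by linarith))
  have hW0 : (0 : ℝ) < WZ X z S ps := by exact_mod_cast WZ_pos X z S ps
  have hQr : (1 : ℝ) ≤ Q := by exact_mod_cast hQ1
  have hLQW : L * Q * WZ X z S ps ≤ L * Real.exp (L ^ δ) * Real.exp (3 / 2 * L ^ θ0) := by gcongr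
  have hF0 : 0 ≤ ∑ h ∈ Icc 1 Y, f h := Finset.sum_nonneg fun h _ => hf h
  rcases hF0.eq_or_lt with hF | hF
  · -- no weights
    rw [← hF]
    have h1 : (Icc 1 ⌊3 * X⌋₊).filter (fun n : ℕ => X < n ∧ (n : ℝ) < Real.exp 1 * X ∧
        n ≡ a [MOD q] ∧ c1 / 64 * 0 ≤ |lam n * PF f Y n - G n|) =
        (Icc 1 ⌊3 * X⌋₊).filter (fun n : ℕ => X < n ∧ (n : ℝ) < Real.exp 1 * X ∧ n ≡ a [MOD q]) := by
      apply Finset.filter_congr
      intro n _
      rw [mul_zero]
      simp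
    rw [h1]
    have hqX : 200 * (q : ℝ) ≤ X := by
      have h2 : 1 ≤ Real.exp (L / 2) := Real.one_le_exp (by linarith)
      have h3 : 0 ≤ C := by linarith
      calc 200 * (q : ℝ) ≤ C * 1 := by linarith
        _ ≤ C * Real.exp (L / 2) := mul_le_mul_of_nonneg_left h2 h3
        _ ≤ X := by rw [← hexpL]; exact f3
    have h2 := (abs_le.1 (sum_nu X (by linarith) q a hq0 (by linarith))).1
    have h3 : ∑ n ∈ Icc 1 ⌊3 * X⌋₊, nu X q a n ≤
        (((Icc 1 ⌊3 * X⌋₊).filter (fun n : ℕ => X < n ∧ (n : ℝ) < Real.exp 1 * X ∧ n ≡ a [MOD q])).card : ℝ) := by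
      rw [Finset.card_filter]
      push_cast
      apply Finset.sum_le_sum
      intro n _
      by_cases h4 : nu X q a n = 0
      · rw [h4]
        split_ifs <;> norm_num
      · rw [if_pos (nu_supp hXpos h4)]
        exact nu_le_one X q a n
    have hM1 := MPhi_ge X g4
    have h5 : X / (40 * q) ≤ MPhi X * (1 / (q : ℝ)) - 5 := by
      have h6 : MPhi X * (1 / (q : ℝ)) - 5 = (MPhi X - 5 * q) / q := by
        field_simp
      rw [h6, div_le_div_iff₀ (by positivity) hqr]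
      have h8 : 0 ≤ (MPhi X - 5 * q - X / 40) * (40 * q) := by
        apply mul_nonneg _ (by positivity)
        linarith
      nlinarith
    have h9 : X * Real.exp (-(L ^ ((θ0 + 1) / 2))) ≤ X / (40 * q) := by
      rw [Real.exp_neg, ← div_eq_mul_inv]
      apply div_le_div_of_nonneg_left hXpos.le (by positivity)
      linarith
    linarith
  · have hEJ : c1 ≤ EJ (DD X w z S ps Q) (2 * k + 2) := by
      refine hc12.trans ?_
      refine EJ_lower (DD X w z S ps Q) (1 / w) α ?_ hα0.le (g1' hps1 hS hQ1 hQ) (2 * k + 2) ?_ (2 * k + 2) le_rfl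
      · intro p hp
        apply one_div_le_one_div_of_le hw0
        exact_mod_cast (mem_filter.1 hp).2.1.le
      · rw [div_le_iff₀ hα0] at g9
        rw [mul_one_div, div_le_iff₀ hw0]
        linarith
    have hmain := core_one X k w z (LL u1 X) (LL u2 X) q ps Q a Y S c1 (c1 / 64) L f G lam hL g4 hzy hq
      ((le_max_left _ _).trans g6) g7 g8 hps hS hQ1 s1 s2 s3 t1 t2 s4 s5 hEJ
      (fun r => hrow z r Y f (by rw [← hL]; exact hz1100) (by rw [← hL]; exact hY) hf) hc1 hc11 (by positivity) le_rfl hL2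
      (by
        rw [hL] at hY
        linarith) ?_ hf hfq hF hG hlam
    · refine le_trans ?_ hmain
      have h1 : c1 / (640 * L) * (X / WZ X z S ps) = X * (c1 / (640 * L * WZ X z S ps)) := by
        field_simp
      rw [h1]
      apply mul_le_mul_of_nonneg_left _ hXpos.le
      rw [Real.exp_neg, ← one_div, div_le_div_iff₀ (Real.exp_pos _) (by positivity), one_mul]
      have h2 : L * WZ X z S ps ≤ L * Real.exp (L ^ δ) * Real.exp (3 / 2 * L ^ θ0) := by
        refine le_trans ?_ hLQW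
        have : (0 : ℝ) ≤ L * WZ X z S ps := by positivity
        nlinarith
      have h3 : C * (L * WZ X z S ps) ≤ Real.exp (L ^ ((θ0 + 1) / 2)) :=
        (mul_le_mul_of_nonneg_left h2 (by
          have : 0 < 3200 / c1 := by positivity
          linarith)).trans f1
      have h4 : 3200 / c1 * (L * WZ X z S ps) ≤ Real.exp (L ^ ((θ0 + 1) / 2)) :=
        (mul_le_mul_of_nonneg_right hC1 (by positivity)).trans h3
      have h5 : 3200 * (L * WZ X z S ps) ≤ c1 * Real.exp (L ^ ((θ0 + 1) / 2)) := by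
        have h6 : 3200 / c1 * (L * WZ X z S ps) = 3200 * (L * WZ X z S ps) / c1 := by ring
        rw [h6, div_le_iff₀ hc1] at h4
        linarith
      have h7 : (0 : ℝ) ≤ L * WZ X z S ps := by positivity
      nlinarith
    · have hC0 : 0 ≤ C := by
        have : 0 < 3200 / c1 := by positivity
        linarith
      have h3 : C * (L * Q * WZ X z S ps) ≤ X :=
        (mul_le_mul_of_nonneg_left hLQW hC0).trans (f2.trans hexpL.le)
      exact (mul_le_mul_of_nonneg_right hC1 (by positivity)).trans h3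

end Pool.Agent.H560.NP
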